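import Mathlib

/-!
# The group Sp(2g, Z): transvections

`V g = Z^{2g}` with coordinates `(x_i, y_i)`, `om` the symplectic form, `e i, f i` the standard
symplectic basis, `Sp g` the isometry group, `T v s : x ↦ x + s * om x v • v`,
`S u w s : x ↦ x + s * om x u • w + s * om x w • u` (for `om u w = 0`).
-/

set_option autoImplicit false

namespace Pool.Agent.H.MP_59b15d_al.SP

open Finset

/-- `Z^{2g}`. -/
abbrev V (g : ℕ) := Fin g → ℤ × ℤ

variable {g : ℕ}

/-- The symplectic form. -/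
def om (u v : V g) : ℤ := ∑ i, ((u i).1 * (v i).2 - (u i).2 * (v i).1)

lemma om_add_left (u u' v : V g) : om (u + u') v = om u v + om u' v := by
  simp only [om, ← Finset.sum_add_distrib, Pi.add_apply, Prod.fst_add, Prod.snd_add]
  exact Finset.sum_congr rfl fun i _ => by ring

lemma om_add_right (u v v' : V g) : om u (v + v') = om u v + om u v' := by
  simp only [om, ← Finset.sum_add_distrib, Pi.add_apply, Prod.fst_add, Prod.snd_add]
  exact Finset.sum_congr rfl fun i _ => by ring

lemma om_smul_left (k : ℤ) (u v : V g) : om (k • u) v = k * om u v := by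
  simp only [om, Finset.mul_sum, Pi.smul_apply, Prod.smul_fst, Prod.smul_snd, smul_eq_mul]
  exact Finset.sum_congr rfl fun i _ => by ring

lemma om_smul_right (k : ℤ) (u v : V g) : om u (k • v) = k * om u v := by
  simp only [om, Finset.mul_sum, Pi.smul_apply, Prod.smul_fst, Prod.smul_snd, smul_eq_mul]
  exact Finset.sum_congr rfl fun i _ => by ring

lemma om_swap (u v : V g) : om u v = -om v u := by
  simp only [om, ← Finset.sum_neg_distrib]
  exact Finset.sum_congr rfl fun i _ => by ring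

lemma om_self (u : V g) : om u u = 0 := by
  have := om_swap u u
  omega

lemma om_neg_left (u v : V g) : om (-u) v = -om u v := by
  have := om_smul_left (-1) u v
  simpa using this

lemma om_neg_right (u v : V g) : om u (-v) = -om u v := by
  have := om_smul_right (-1) u v
  simpa using this

lemma om_sub_left (u u' v : V g) : om (u - u') v = om u v - om u' v := by
  rw [sub_eq_add_neg, om_add_left, om_neg_left]; ring

lemma om_sub_right (u v v' : V g) : om u (v - v') = om u v - om u v' := by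
  rw [sub_eq_add_neg, om_add_right, om_neg_right]; ring

lemma om_zero_left (v : V g) : om 0 v = 0 := by
  simp [om]

lemma om_zero_right (v : V g) : om v 0 = 0 := by
  simp [om]

/-- Basis vectors. -/
def e (i : Fin g) : V g := Pi.single i (1, 0)

/-- Basis vectors. -/
def f (i : Fin g) : V g := Pi.single i (0, 1)

lemma om_f (x : V g) (i : Fin g) : om x (f i) = (x i).1 := by
  classical
  simp only [om, f]
  rw [Finset.sum_eq_single i]
  · simp
  · intro j _ hj
    simp [Pi.single_eq_of_ne hj]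
  · simp

lemma om_e (x : V g) (i : Fin g) : om x (e i) = -(x i).2 := by
  classical
  simp only [om, e]
  rw [Finset.sum_eq_single i]
  · simp
  · intro j _ hj
    simp [Pi.single_eq_of_ne hj]
  · simp

lemma om_f' (x : V g) (i : Fin g) : om (f i) x = -(x i).1 := by
  rw [om_swap, om_f]

lemma om_e' (x : V g) (i : Fin g) : om (e i) x = (x i).2 := by
  rw [om_swap, om_e]; ring

lemma e_self (i : Fin g) : (e i : V g) i = (1, 0) := by simp [e]
lemma f_self (i : Fin g) : (f i : V g) i = (0, 1) := by simp [f]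
lemma e_ne {i j : Fin g} (h : j ≠ i) : (e i : V g) j = 0 := by simp [e, h]
lemma f_ne {i j : Fin g} (h : j ≠ i) : (f i : V g) j = 0 := by simp [f, h]

lemma om_e_f (i : Fin g) : om (e i) (f i) = 1 := by rw [om_f, e_self]
lemma om_f_e (i : Fin g) : om (f i) (e i) = -1 := by rw [om_e, f_self]
lemma om_e_f_ne {i j : Fin g} (h : i ≠ j) : om (e i) (f j) = 0 := by
  rw [om_f, e_ne h.symm]; rfl
lemma om_f_e_ne {i j : Fin g} (h : i ≠ j) : om (f i) (e j) = 0 := by
  rw [om_e, f_ne h.symm]; rfl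
lemma om_e_e (i j : Fin g) : om (e i) (e j) = 0 := by
  by_cases h : i = j
  · subst h; exact om_self _
  · rw [om_e, e_ne (Ne.symm h)]; rfl
lemma om_f_f (i j : Fin g) : om (f i) (f j) = 0 := by
  by_cases h : i = j
  · subst h; exact om_self _
  · rw [om_f, f_ne (Ne.symm h)]; rfl

/-- Expansion in the basis. -/
lemma expand (x : V g) : x = ∑ i, ((x i).1 • e i + (x i).2 • f i) := by
  classical
  funext j
  rw [Finset.sum_apply, Finset.sum_eq_single j]
  · rw [Pi.add_apply, Pi.smul_apply, Pi.smul_apply, e_self, f_self]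
    ext <;> simp
  · intro i _ hi
    rw [Pi.add_apply, Pi.smul_apply, Pi.smul_apply, e_ne (Ne.symm hi), f_ne (Ne.symm hi),
      smul_zero, smul_zero, add_zero]
  · simp

/-- Nondegeneracy. -/
lemma om_ext {u v : V g} (h : ∀ x, om x u = om x v) : u = v := by
  funext i
  have h1 := h (e i)
  have h2 := h (f i)
  rw [om_e', om_e'] at h1
  rw [om_f', om_f'] at h2
  exact Prod.ext (by omega) h1

/-- The symplectic group. -/
def Sp (g : ℕ) : Subgroup (V g ≃ₗ[ℤ] V g) where
  carrier := {A | ∀ u v, om (A u) (A v) = om u v}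
  mul_mem' := by
    intro A B hA hB u v
    change om (A (B u)) (A (B v)) = om u v
    rw [hA, hB]
  one_mem' := fun u v => rfl
  inv_mem' := by
    intro A hA u v
    have h := hA (A⁻¹ u) (A⁻¹ v)
    have h1 : ∀ x, A (A⁻¹ x) = x := fun x => A.apply_symm_apply x
    rw [h1, h1] at h
    exact h.symm

instance : CoeFun (Sp g) (fun _ => V g → V g) := ⟨fun A => (A.1 : V g ≃ₗ[ℤ] V g)⟩

lemma sp_om (A : Sp g) (u v : V g) : om (A u) (A v) = om u v := A.2 u v
lemma sp_add (A : Sp g) (u v : V g) : A (u + v) = A u + A v := map_add A.1 u v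
lemma sp_sub (A : Sp g) (u v : V g) : A (u - v) = A u - A v := map_sub A.1 u v
lemma sp_smul (A : Sp g) (k : ℤ) (u : V g) : A (k • u) = k • A u := map_smul A.1 k u
lemma sp_mul (A B : Sp g) (u : V g) : (A * B) u = A (B u) := rfl
lemma sp_one (u : V g) : (1 : Sp g) u = u := rfl
lemma sp_inv_apply (A : Sp g) (u : V g) : (A⁻¹) (A u) = u := A.1.symm_apply_apply u
lemma sp_apply_inv (A : Sp g) (u : V g) : A ((A⁻¹) u) = u := A.1.apply_symm_apply u
lemma sp_ext {A B : Sp g} (h : ∀ x, A x = B x) : A = B :=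
  Subtype.ext (LinearEquiv.ext h)

/-- A linear map with inverse which preserves the form, as an element of `Sp`. -/
def mk (F G : V g →ₗ[ℤ] V g) (h1 : ∀ x, F (G x) = x) (h2 : ∀ x, G (F x) = x)
    (h : ∀ u v, om (F u) (F v) = om u v) : Sp g :=
  ⟨LinearEquiv.ofLinearMap F G (LinearMap.ext h1) (LinearMap.ext h2), h⟩

lemma mk_apply (F G : V g →ₗ[ℤ] V g) (h1 h2 h) (x : V g) : mk F G h1 h2 h x = F x := rfl

/-- `x ↦ om x v` as a linear map. -/
def omL (v : V g) : V g →ₗ[ℤ] ℤ where
  toFun x := om x v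
  map_add' x y := om_add_left x y v
  map_smul' k x := by rw [om_smul_left]; rfl

lemma omL_apply (v x : V g) : omL v x = om x v := rfl

/-- The linear map `x ↦ x + s * om x v • v`. -/
def tL (v : V g) (s : ℤ) : V g →ₗ[ℤ] V g := LinearMap.id + s • (omL v).smulRight v

lemma tL_apply (v : V g) (s : ℤ) (x : V g) : tL v s x = x + (s * om x v) • v := by
  rw [tL, LinearMap.add_apply, LinearMap.id_apply, LinearMap.smul_apply,
    LinearMap.smulRight_apply, omL_apply, smul_smul]

lemma tL_tL (v : V g) (s t : ℤ) (x : V g) : tL v s (tL v t x) = x + ((s + t) * om x v) • v := by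
  rw [tL_apply, tL_apply, om_add_left, om_smul_left, om_self, mul_zero, add_zero, add_assoc,
    ← add_smul]
  congr 2; ring

/-- Transvections. -/
def T (v : V g) (s : ℤ) : Sp g :=
  mk (tL v s) (tL v (-s)) (fun x => by rw [tL_tL, add_neg_cancel, zero_mul, zero_smul, add_zero])
    (fun x => by rw [tL_tL, neg_add_cancel, zero_mul, zero_smul, add_zero])
    (fun u w => by
      rw [tL_apply, tL_apply, om_add_left, om_add_right, om_add_right, om_smul_left,
        om_smul_left, om_smul_right, om_smul_right, om_self, om_swap v w]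
      ring)

lemma T_apply (v : V g) (s : ℤ) (x : V g) : T v s x = x + (s * om x v) • v := tL_apply v s x

lemma T_mul (v : V g) (s t : ℤ) : T v s * T v t = T v (s + t) := by
  refine sp_ext fun x => ?_
  rw [T_apply v (s + t)]
  exact tL_tL v s t x

lemma T_zero (v : V g) : T v 0 = 1 := by
  refine sp_ext fun x => ?_
  rw [T_apply, sp_one, zero_mul, zero_smul, add_zero]

lemma T_inv (v : V g) (s : ℤ) : (T v s)⁻¹ = T v (-s) := by
  rw [inv_eq_iff_mul_eq_one, T_mul, add_neg_cancel, T_zero]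

lemma T_smul (k : ℤ) (v : V g) (s : ℤ) : T (k • v) s = T v (k ^ 2 * s) := by
  refine sp_ext fun x => ?_
  rw [T_apply, T_apply, om_smul_right, smul_smul]
  congr 2; ring

lemma T_zpow (v : V g) (s k : ℤ) : (T v s) ^ k = T v (s * k) := by
  have h0 : ∀ n : ℕ, (T v s) ^ n = T v (s * n) := by
    intro n
    induction n with
    | zero => simp [T_zero]
    | succ n ih => rw [pow_succ, ih, T_mul]; congr 1; push_cast; ring
  obtain ⟨n, rfl | rfl⟩ := k.eq_nat_or_neg
  · rw [zpow_natCast, h0]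
  · rw [zpow_neg, zpow_natCast, h0, T_inv]; congr 1; ring

lemma T_conj (A : Sp g) (v : V g) (s : ℤ) : A * T v s * A⁻¹ = T (A v) s := by
  refine sp_ext fun x => ?_
  rw [sp_mul, sp_mul, T_apply, T_apply, sp_add, sp_smul, sp_apply_inv]
  congr 3
  rw [← sp_om A, sp_apply_inv]

/-- Short root elements (useful when `om u w = 0`). -/
def S (u w : V g) (s : ℤ) : Sp g := T (u + w) s * T u (-s) * T w (-s)

lemma S_apply {u w : V g} (h : om u w = 0) (s : ℤ) (x : V g) :
    S u w s x = x + (s * om x u) • w + (s * om x w) • u := by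
  have h' : om w u = 0 := by rw [om_swap, h]; rfl
  rw [S, sp_mul, sp_mul, T_apply w, T_apply u, T_apply (u + w)]
  simp only [om_add_left, om_add_right, om_smul_left, om_self, h, h']
  module

lemma S_inv {u w : V g} (h : om u w = 0) (s : ℤ) : (S u w s)⁻¹ = S u w (-s) := by
  have h' : om w u = 0 := by rw [om_swap, h]; rfl
  rw [inv_eq_iff_mul_eq_one]
  refine sp_ext fun x => ?_
  rw [sp_mul, S_apply h, S_apply h, sp_one]
  simp only [om_add_left, om_smul_left, om_self, h, h']
  module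

/-! ### Congruences -/

/-- All coordinates divisible by `m`. -/
def Dv (m : ℤ) (u : V g) : Prop := ∃ u' : V g, u = m • u'

lemma Dv.add {m : ℤ} {u v : V g} (hu : Dv m u) (hv : Dv m v) : Dv m (u + v) := by
  obtain ⟨u', rfl⟩ := hu
  obtain ⟨v', rfl⟩ := hv
  exact ⟨u' + v', by rw [smul_add]⟩

lemma Dv.smul {m : ℤ} {u : V g} (hu : Dv m u) (k : ℤ) : Dv m (k • u) := by
  obtain ⟨u', rfl⟩ := hu
  exact ⟨k • u', smul_comm _ _ _⟩

lemma Dv.neg {m : ℤ} {u : V g} (hu : Dv m u) : Dv m (-u) := by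
  obtain ⟨u', rfl⟩ := hu
  exact ⟨-u', by rw [smul_neg]⟩

lemma Dv.sub {m : ℤ} {u v : V g} (hu : Dv m u) (hv : Dv m v) : Dv m (u - v) := by
  rw [sub_eq_add_neg]; exact hu.add hv.neg

lemma Dv.of_dvd {m k : ℤ} (h : m ∣ k) (u : V g) : Dv m (k • u) := by
  obtain ⟨l, rfl⟩ := h
  exact ⟨l • u, by rw [smul_smul]⟩

lemma Dv.zero (m : ℤ) : Dv m (0 : V g) := ⟨0, by simp⟩

lemma Dv.om_left {m : ℤ} {u : V g} (hu : Dv m u) (v : V g) : m ∣ om u v := by
  obtain ⟨u', rfl⟩ := hu
  exact ⟨_, om_smul_left m u' v⟩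

lemma Dv.om_right {m : ℤ} {u : V g} (hu : Dv m u) (v : V g) : m ∣ om v u := by
  obtain ⟨u', rfl⟩ := hu
  exact ⟨_, om_smul_right m v u'⟩

lemma Dv.map {m : ℤ} {u : V g} (hu : Dv m u) (A : Sp g) : Dv m (A u) := by
  obtain ⟨u', rfl⟩ := hu
  exact ⟨A u', sp_smul _ _ _⟩

/-- `A = 1` modulo `m`. -/
def Cg (m : ℤ) (A : Sp g) : Prop := ∀ x : V g, Dv m (A x - x)

lemma Cg.mul {m : ℤ} {A B : Sp g} (hA : Cg m A) (hB : Cg m B) : Cg m (A * B) := by
  intro x
  have h := (hA (B x)).add (hB x)
  rw [sp_mul]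
  simpa using h

lemma Cg.inv {m : ℤ} {A : Sp g} (hA : Cg m A) : Cg m A⁻¹ := by
  intro x
  have h := (hA ((A⁻¹) x)).neg
  rw [sp_apply_inv] at h
  simpa using h

lemma Cg.one (m : ℤ) : Cg m (1 : Sp g) := fun x => by rw [sp_one, sub_self]; exact Dv.zero m

lemma Cg.conj {m : ℤ} {A : Sp g} (hA : Cg m A) (B : Sp g) : Cg m (B * A * B⁻¹) := by
  intro x
  have h := (hA ((B⁻¹) x)).map B
  rw [sp_sub, sp_apply_inv] at h
  exact h

lemma Cg.T {m : ℤ} {s : ℤ} (hs : m ∣ s) (v : V g) : Cg m (T v s) := by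
  intro x
  rw [T_apply, add_sub_cancel_left]
  exact Dv.of_dvd (hs.mul_right _) _

lemma Cg.S {m : ℤ} {s : ℤ} (hs : m ∣ s) (u v : V g) : Cg m (S u v s) :=
  ((Cg.T hs _).mul (Cg.T hs.neg_right _)).mul (Cg.T hs.neg_right _)

lemma Cg.S' {m : ℤ} {u w : V g} (h : om u w = 0) (hu : Dv m u) (s : ℤ) : Cg m (SP.S u w s) := by
  intro x
  rw [S_apply h, add_assoc, add_sub_cancel_left]
  exact (Dv.of_dvd ((hu.om_right x).mul_left s) w).add (hu.smul _)

end Pool.Agent.H.MP_59b15d_al.SP
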