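import Pool.Agent.H.MP_59b15d_al.sp.Main

/-!
# The congruence subgroup property of `Sp(2g, Z)` for subgroups of the mapping class group
-/

set_option autoImplicit false

namespace Pool.Agent.H.MP_59b15d_al.SP

open Pool.MP_59b15d_al.H24T Pool.MP_59b15d_al.H76R

variable {g : ℕ} {G : Type*} [Group G] {a b : Fin g → G}

section

variable (h : IsSurf a b)

/-- `spm h f ≡ 1` modulo `m` in terms of classes. -/
lemma cg_spm_iff {m : ℤ} {f : MCG a b} :
    Cg m (spm h f) ↔ ∀ x : G, Dv m (cls h (f.1 x) - cls h x) := by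
  constructor
  · intro hf x
    have := hf (cls h x)
    rwa [spm_cls] at this
  · intro hf v
    obtain ⟨x, rfl⟩ := cls_surj h v
    rw [spm_cls]
    exact hf x

/-- `spm h f = 1` in terms of `H1`. -/
lemma spm_eq_one_iff {f : MCG a b} : spm h f = 1 ↔ H1 h f.1 = 1 :=
  ⟨fun hf => by rw [← spm_val, hf]; rfl, fun hf => Subtype.ext (by rw [spm_val, hf]; rfl)⟩

lemma TA_mem_MCG (i : Fin g) : TA h i ∈ MCG a b :=
  Subgroup.subset_closure (Or.inr (Or.inl ⟨i, trivial, (isA_iff h i _).2 rfl⟩))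

lemma spm_TA (i : Fin g) (f : MCG a b) (hf : f.1 = TA h i) : spm h f = T (e i) (-1) :=
  spm_A h ((isA_iff h i _).2 hf)

/-- **Powers of twists.** Let `R` be a subgroup of the mapping class group, normalised by it, which
contains the `m`-th power of one twist `TA h k`, `m ≠ 0`. Every mapping class which acts on the
homology as the identity modulo `m` acts on the homology as an element of `R`. -/
theorem power_spm (hg : 3 ≤ g) {R : Subgroup (MCG a b)} [R.Normal] {m : ℤ} (hm : m ≠ 0)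
    {k : Fin g} {t : MCG a b} (ht : t.1 = TA h k) (hR : t ^ m ∈ R) {f : MCG a b}
    (hf : Cg m (spm h f)) : ∃ r ∈ R, spm h (f * r⁻¹) = 1 := by
  have hn : (R.map (spm h)).Normal := Subgroup.Normal.map inferInstance _ (spm_surj h)
  have h1 : T (e k) m ∈ R.map (spm h) := by
    refine ⟨(t ^ m)⁻¹, R.inv_mem hR, ?_⟩
    rw [map_inv, map_zpow, spm_TA h k t ht, T_zpow, T_inv]
    congr 1
    ring
  obtain ⟨r, hr, hrf⟩ := cg_mem hg hm h1 hf
  exact ⟨r, hr, by rw [map_mul, map_inv, hrf, mul_inv_cancel]⟩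

/-- **Powers of twists**, for subgroups of `MulAut G`. -/
theorem power_H1 (hg : 3 ≤ g) {N : Subgroup (MulAut G)}
    (hN : ∀ f ∈ MCG a b, ∀ x ∈ N, f * x * f⁻¹ ∈ N) {m : ℤ} (hm : m ≠ 0) {k : Fin g}
    (hT : TA h k ^ m ∈ N) {f : MulAut G} (hf : f ∈ MCG a b)
    (hfm : ∀ x : G, Dv m (cls h (f x) - cls h x)) :
    ∃ r ∈ N, r ∈ MCG a b ∧ H1 h (f * r⁻¹) = 1 := by
  have hn : (N.subgroupOf (MCG a b)).Normal := by
    refine ⟨fun x hx f' => ?_⟩
    rw [Subgroup.mem_subgroupOf] at hx ⊢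
    exact hN f'.1 f'.2 x.1 hx
  obtain ⟨r, hr, hr1⟩ := power_spm h hg (R := N.subgroupOf (MCG a b)) hm (k := k)
    (t := ⟨TA h k, TA_mem_MCG h k⟩) rfl
    (by rw [Subgroup.mem_subgroupOf]; simpa using hT) (f := ⟨f, hf⟩) ((cg_spm_iff h).2 hfm)
  refine ⟨r.1, Subgroup.mem_subgroupOf.1 hr, r.2, ?_⟩
  have := (spm_eq_one_iff h).1 hr1
  simpa using this

/-- **The congruence subgroup property** for finite-index subgroups which contain the Torelli
group. -/
theorem csp_spm (hg : 3 ≤ g) (H : Subgroup (MCG a b)) [H.FiniteIndex]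
    (hH : ∀ f : MCG a b, spm h f = 1 → f ∈ H) :
    ∃ m : ℤ, 0 < m ∧ ∀ f : MCG a b, Cg m (spm h f) → f ∈ H := by
  have h1 : (H.map (spm h)).FiniteIndex :=
    ⟨ne_zero_of_dvd_ne_zero Subgroup.FiniteIndex.index_ne_zero
      (H.index_map_dvd (spm_surj h))⟩
  obtain ⟨m, hm, h2⟩ := csp hg (H.map (spm h))
  refine ⟨m, hm, fun f hf => ?_⟩
  obtain ⟨r, hr, hrf⟩ := h2 _ hf
  have h3 : f * r⁻¹ ∈ H := hH _ (by rw [map_mul, map_inv, hrf, mul_inv_cancel])
  simpa using H.mul_mem h3 hr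

/-- **The congruence subgroup property** for subgroups of `MulAut G` which contain the Torelli
group and are of finite index in the mapping class group. -/
theorem csp_H1 (hg : 3 ≤ g) (H : Subgroup (MulAut G)) (hf : H.relIndex (MCG a b) ≠ 0)
    (hH : ∀ f ∈ MCG a b, H1 h f = 1 → f ∈ H) :
    ∃ m : ℤ, 0 < m ∧ ∀ f ∈ MCG a b, (∀ x : G, Dv m (cls h (f x) - cls h x)) → f ∈ H := by
  have h1 : (H.subgroupOf (MCG a b)).FiniteIndex := ⟨hf⟩
  obtain ⟨m, hm, h2⟩ := csp_spm h hg (H.subgroupOf (MCG a b))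
    (fun f hf => Subgroup.mem_subgroupOf.2 (hH f.1 f.2 ((spm_eq_one_iff h).1 hf)))
  exact ⟨m, hm, fun f hf hx => Subgroup.mem_subgroupOf.1 (h2 ⟨f, hf⟩ ((cg_spm_iff h).2 hx))⟩

end

end Pool.Agent.H.MP_59b15d_al.SP
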