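import Mathlib
import Pool.Agent.H.MP_59b15d_al.h93s.Menn
import Pool.Agent.H.MP_59b15d_al.sp.Base

/-!
# SL_2-blocks in Sp(2g, Z) and the square relation
-/

set_option autoImplicit false

namespace Pool.Agent.H.MP_59b15d_al.SP

open Finset Pool.Agent.H.MP_59b15d_al.h93s

variable {g : ℕ}

/-- the linear map of a long block -/
def Lfun (i : Fin g) (a b c d : ℤ) : V g →ₗ[ℤ] V g where
  toFun x := fun k => if k = i then (a * (x i).1 + b * (x i).2, c * (x i).1 + d * (x i).2) else x k
  map_add' x y := by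
    funext k
    by_cases h : k = i
    · simp only [h, if_true, Pi.add_apply]
      ext <;> simp <;> ring
    · simp [h]
  map_smul' t x := by
    funext k
    by_cases h : k = i
    · simp only [h, if_true, Pi.smul_apply]
      ext <;> simp <;> ring
    · simp [h]

lemma Lfun_self (i : Fin g) (a b c d : ℤ) (x : V g) :
    Lfun i a b c d x i = (a * (x i).1 + b * (x i).2, c * (x i).1 + d * (x i).2) := by
  simp [Lfun]

lemma Lfun_ne (i : Fin g) (a b c d : ℤ) (x : V g) {k : Fin g} (h : k ≠ i) :
    Lfun i a b c d x k = x k := by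
  simp [Lfun, h]

/-- long blocks -/
def L (i : Fin g) (a b c d : ℤ) (h : a * d - b * c = 1) : Sp g :=
  mk (Lfun i a b c d) (Lfun i d (-b) (-c) a)
    (fun x => by
      funext k
      by_cases hk : k = i
      · subst hk
        rw [Lfun_self, Lfun_self]
        ext
        · simp only
          linear_combination (x k).1 * h
        · simp only
          linear_combination (x k).2 * h
      · rw [Lfun_ne _ _ _ _ _ _ hk, Lfun_ne _ _ _ _ _ _ hk])
    (fun x => by
      funext k
      by_cases hk : k = i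
      · subst hk
        rw [Lfun_self, Lfun_self]
        ext
        · simp only
          linear_combination (x k).1 * h
        · simp only
          linear_combination (x k).2 * h
      · rw [Lfun_ne _ _ _ _ _ _ hk, Lfun_ne _ _ _ _ _ _ hk])
    (fun u v => by
      simp only [om]
      refine Finset.sum_congr rfl fun k _ => ?_
      by_cases hk : k = i
      · subst hk
        rw [Lfun_self, Lfun_self]
        simp only
        linear_combination ((u k).1 * (v k).2 - (u k).2 * (v k).1) * h
      · rw [Lfun_ne _ _ _ _ _ _ hk, Lfun_ne _ _ _ _ _ _ hk])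

lemma L_self (i : Fin g) (a b c d : ℤ) (h : a * d - b * c = 1) (x : V g) :
    L i a b c d h x i = (a * (x i).1 + b * (x i).2, c * (x i).1 + d * (x i).2) :=
  Lfun_self i a b c d x

lemma L_ne (i : Fin g) (a b c d : ℤ) (h : a * d - b * c = 1) (x : V g) {k : Fin g} (hk : k ≠ i) :
    L i a b c d h x k = x k :=
  Lfun_ne i a b c d x hk

/-- the linear map of a short block -/
def Hfun (i j : Fin g) (a b c d : ℤ) : V g →ₗ[ℤ] V g where
  toFun x := fun k =>
    if k = i then (a * (x i).1 + b * (x j).1, d * (x i).2 - c * (x j).2)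
    else if k = j then (c * (x i).1 + d * (x j).1, -b * (x i).2 + a * (x j).2)
    else x k
  map_add' x y := by
    funext k
    by_cases h : k = i
    · simp only [h, if_true, Pi.add_apply]
      ext <;> simp <;> ring
    · by_cases h2 : k = j
      · simp only [h, if_false, h2, if_true, Pi.add_apply]
        have hji : ¬ j = i := fun hh => h (h2.trans hh)
        simp only [hji, if_false]
        ext <;> simp <;> ring
      · simp [h, h2]
  map_smul' t x := by
    funext k
    by_cases h : k = i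
    · simp only [h, if_true, Pi.smul_apply]
      ext <;> simp <;> ring
    · by_cases h2 : k = j
      · have hji : ¬ j = i := fun hh => h (h2.trans hh)
        simp only [h2, if_true, Pi.smul_apply, hji, if_false]
        ext <;> simp <;> ring
      · simp [h, h2]

lemma Hfun_i (i j : Fin g) (a b c d : ℤ) (x : V g) :
    Hfun i j a b c d x i = (a * (x i).1 + b * (x j).1, d * (x i).2 - c * (x j).2) := by
  simp [Hfun]

lemma Hfun_j {i j : Fin g} (hij : i ≠ j) (a b c d : ℤ) (x : V g) :
    Hfun i j a b c d x j = (c * (x i).1 + d * (x j).1, -b * (x i).2 + a * (x j).2) := by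
  simp [Hfun, hij.symm]

lemma Hfun_ne (i j : Fin g) (a b c d : ℤ) (x : V g) {k : Fin g} (h : k ≠ i) (h' : k ≠ j) :
    Hfun i j a b c d x k = x k := by
  simp [Hfun, h, h']

lemma sum_two {i j : Fin g} (hij : i ≠ j) (F G : Fin g → ℤ) (h : ∀ k, k ≠ i → k ≠ j → F k = G k)
    (h2 : F i + F j = G i + G j) : ∑ k, F k = ∑ k, G k := by
  classical
  have hj : j ∈ Finset.univ.erase i := by simp [hij.symm]
  rw [← Finset.add_sum_erase _ F (Finset.mem_univ i), ← Finset.add_sum_erase _ G (Finset.mem_univ i),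
    ← Finset.add_sum_erase _ F hj, ← Finset.add_sum_erase _ G hj, ← add_assoc, ← add_assoc, h2]
  congr 1
  refine Finset.sum_congr rfl fun k hk => ?_
  simp only [Finset.mem_erase, Finset.mem_univ, and_true] at hk
  exact h k hk.2 hk.1

/-- short blocks -/
def H {i j : Fin g} (hij : i ≠ j) (a b c d : ℤ) (h : a * d - b * c = 1) : Sp g :=
  mk (Hfun i j a b c d) (Hfun i j d (-b) (-c) a)
    (fun x => by
      funext k
      by_cases hk : k = i
      · subst hk
        rw [Hfun_i, Hfun_i, Hfun_j hij]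
        ext
        · simp only
          linear_combination (x k).1 * h
        · simp only
          linear_combination (x k).2 * h
      · by_cases hk' : k = j
        · subst hk'
          rw [Hfun_j hij, Hfun_j hij, Hfun_i]
          ext
          · simp only
            linear_combination (x k).1 * h
          · simp only
            linear_combination (x k).2 * h
        · rw [Hfun_ne _ _ _ _ _ _ _ hk hk', Hfun_ne _ _ _ _ _ _ _ hk hk'])
    (fun x => by
      funext k
      by_cases hk : k = i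
      · subst hk
        rw [Hfun_i, Hfun_i, Hfun_j hij]
        ext
        · simp only
          linear_combination (x k).1 * h
        · simp only
          linear_combination (x k).2 * h
      · by_cases hk' : k = j
        · subst hk'
          rw [Hfun_j hij, Hfun_j hij, Hfun_i]
          ext
          · simp only
            linear_combination (x k).1 * h
          · simp only
            linear_combination (x k).2 * h
        · rw [Hfun_ne _ _ _ _ _ _ _ hk hk', Hfun_ne _ _ _ _ _ _ _ hk hk'])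
    (fun u v => by
      simp only [om]
      refine sum_two hij _ _ (fun k hk hk' => ?_) ?_
      · rw [Hfun_ne _ _ _ _ _ _ _ hk hk', Hfun_ne _ _ _ _ _ _ _ hk hk']
      · rw [Hfun_i, Hfun_i, Hfun_j hij, Hfun_j hij]
        simp only
        linear_combination ((u i).1 * (v i).2 - (u i).2 * (v i).1 + (u j).1 * (v j).2 -
          (u j).2 * (v j).1) * h)

lemma H_i {i j : Fin g} (hij : i ≠ j) (a b c d : ℤ) (h : a * d - b * c = 1) (x : V g) :
    H hij a b c d h x i = (a * (x i).1 + b * (x j).1, d * (x i).2 - c * (x j).2) :=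
  Hfun_i i j a b c d x

lemma H_j {i j : Fin g} (hij : i ≠ j) (a b c d : ℤ) (h : a * d - b * c = 1) (x : V g) :
    H hij a b c d h x j = (c * (x i).1 + d * (x j).1, -b * (x i).2 + a * (x j).2) :=
  Hfun_j hij a b c d x

lemma H_ne {i j : Fin g} (hij : i ≠ j) (a b c d : ℤ) (h : a * d - b * c = 1) (x : V g)
    {k : Fin g} (hk : k ≠ i) (hk' : k ≠ j) :
    H hij a b c d h x k = x k :=
  Hfun_ne i j a b c d x hk hk'

/-! ### coordinates of the unipotent elements -/

lemma T_e_i (i : Fin g) (t : ℤ) (x : V g) : T (e i) t x i = ((x i).1 - t * (x i).2, (x i).2) := by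
  rw [T_apply, Pi.add_apply, Pi.smul_apply, e_self, om_e]
  ext <;> simp [sub_eq_add_neg]

lemma T_e_ne {i k : Fin g} (h : k ≠ i) (t : ℤ) (x : V g) : T (e i) t x k = x k := by
  rw [T_apply, Pi.add_apply, Pi.smul_apply, e_ne h, smul_zero, add_zero]

lemma T_f_i (i : Fin g) (t : ℤ) (x : V g) : T (f i) t x i = ((x i).1, (x i).2 + t * (x i).1) := by
  rw [T_apply, Pi.add_apply, Pi.smul_apply, f_self, om_f]
  ext <;> simp

lemma T_f_ne {i k : Fin g} (h : k ≠ i) (t : ℤ) (x : V g) : T (f i) t x k = x k := by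
  rw [T_apply, Pi.add_apply, Pi.smul_apply, f_ne h, smul_zero, add_zero]

section pair

variable {i j : Fin g} (hij : i ≠ j)

include hij

lemma S_ef_i (t : ℤ) (x : V g) : S (e i) (f j) t x i = ((x i).1 + t * (x j).1, (x i).2) := by
  rw [S_apply (om_e_f_ne hij), Pi.add_apply, Pi.add_apply, Pi.smul_apply, Pi.smul_apply, f_ne hij,
    e_self, om_e, om_f]
  ext <;> simp

lemma S_ef_j (t : ℤ) (x : V g) : S (e i) (f j) t x j = ((x j).1, (x j).2 - t * (x i).2) := by
  rw [S_apply (om_e_f_ne hij), Pi.add_apply, Pi.add_apply, Pi.smul_apply, Pi.smul_apply, f_self,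
    e_ne hij.symm, om_e, om_f]
  ext <;> simp [sub_eq_add_neg]

lemma S_ef_ne (t : ℤ) (x : V g) {k : Fin g} (hk : k ≠ i) (hk' : k ≠ j) :
    S (e i) (f j) t x k = x k := by
  rw [S_apply (om_e_f_ne hij), Pi.add_apply, Pi.add_apply, Pi.smul_apply, Pi.smul_apply, f_ne hk',
    e_ne hk, smul_zero, smul_zero, add_zero, add_zero]

lemma S_ee_i (t : ℤ) (x : V g) : S (e i) (e j) t x i = ((x i).1 - t * (x j).2, (x i).2) := by
  rw [S_apply (om_e_e i j), Pi.add_apply, Pi.add_apply, Pi.smul_apply, Pi.smul_apply, e_ne hij,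
    e_self, om_e, om_e]
  ext <;> simp [sub_eq_add_neg]

lemma S_ee_j (t : ℤ) (x : V g) : S (e i) (e j) t x j = ((x j).1 - t * (x i).2, (x j).2) := by
  rw [S_apply (om_e_e i j), Pi.add_apply, Pi.add_apply, Pi.smul_apply, Pi.smul_apply, e_self,
    e_ne hij.symm, om_e, om_e]
  ext <;> simp [sub_eq_add_neg]

lemma S_ee_ne (t : ℤ) (x : V g) {k : Fin g} (hk : k ≠ i) (hk' : k ≠ j) :
    S (e i) (e j) t x k = x k := by
  rw [S_apply (om_e_e i j), Pi.add_apply, Pi.add_apply, Pi.smul_apply, Pi.smul_apply, e_ne hk',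
    e_ne hk, smul_zero, smul_zero, add_zero, add_zero]

lemma S_ff_i (t : ℤ) (x : V g) : S (f i) (f j) t x i = ((x i).1, (x i).2 + t * (x j).1) := by
  rw [S_apply (om_f_f i j), Pi.add_apply, Pi.add_apply, Pi.smul_apply, Pi.smul_apply, f_ne hij,
    f_self, om_f, om_f]
  ext <;> simp

lemma S_ff_j (t : ℤ) (x : V g) : S (f i) (f j) t x j = ((x j).1, (x j).2 + t * (x i).1) := by
  rw [S_apply (om_f_f i j), Pi.add_apply, Pi.add_apply, Pi.smul_apply, Pi.smul_apply, f_self,
    f_ne hij.symm, om_f, om_f]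
  ext <;> simp

lemma S_ff_ne (t : ℤ) (x : V g) {k : Fin g} (hk : k ≠ i) (hk' : k ≠ j) :
    S (f i) (f j) t x k = x k := by
  rw [S_apply (om_f_f i j), Pi.add_apply, Pi.add_apply, Pi.smul_apply, Pi.smul_apply, f_ne hk',
    f_ne hk, smul_zero, smul_zero, add_zero, add_zero]

end pair

lemma det_prod {a b1 c1 d1 b2 c2 d2 : ℤ} (h1 : a * d1 - b1 * c1 = 1) (h2 : a * d2 - b2 * c2 = 1) :
    a * (d1 - b1 * c1 * d2 + c1 * c2 * d1 * b1 * b2) - (b1 ^ 2 * b2) * (c1 ^ 2 * c2) = 1 := by
  linear_combination (1 + b1 * b2 * c1 * c2) * h1 - b1 * c1 * h2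

/-- the square relation, as an identity in `Sp` -/
lemma square_identity {i j : Fin g} (hij : i ≠ j) {a b1 c1 d1 b2 c2 d2 : ℤ}
    (h1 : a * d1 - b1 * c1 = 1) (h2 : a * d2 - b2 * c2 = 1) :
    H hij a b1 c1 d1 h1 * L j a b2 c2 d2 h2 * S (e i) (f j) (-b1) *
      T (e j) (d1 * b2 - c1 * d1 * b1 * b2) * S (e i) (e j) (d1 * b1 * b2) * S (e j) (f i) (-c1) =
    T (f j) (a * c2) * S (f i) (f j) (-(c1 * c2)) *
      L i a (b1 ^ 2 * b2) (c1 ^ 2 * c2) (d1 - b1 * c1 * d2 + c1 * c2 * d1 * b1 * b2)
        (det_prod h1 h2) := by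
  refine sp_ext fun x => ?_
  simp only [sp_mul]
  funext k
  by_cases hk : k = i
  · subst hk
    rw [H_i, L_ne _ _ _ _ _ _ _ hij, L_self, S_ef_i hij, S_ef_j hij, T_e_ne hij, T_e_i, S_ee_i hij,
      S_ee_j hij, S_ef_j hij.symm, S_ef_i hij.symm, T_f_ne hij, S_ff_i hij, L_self,
      L_ne _ _ _ _ _ _ _ hij.symm]
    ext
    · simp only
      grind
    · simp only
      grind
  · by_cases hk' : k = j
    · subst hk'
      rw [H_j, L_ne _ _ _ _ _ _ _ hij, L_self, S_ef_i hij, S_ef_j hij, T_e_ne hij, T_e_i, S_ee_i hij,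
        S_ee_j hij, S_ef_j hij.symm, S_ef_i hij.symm, T_f_i, S_ff_j hij, L_self,
        L_ne _ _ _ _ _ _ _ hij.symm]
      ext
      · simp only
        grind
      · simp only
        grind
    · rw [H_ne _ _ _ _ _ _ _ hk hk', L_ne _ _ _ _ _ _ _ hk', S_ef_ne hij _ _ hk hk', T_e_ne hk',
        S_ee_ne hij _ _ hk hk', S_ef_ne hij.symm _ _ hk' hk, T_f_ne hk', S_ff_ne hij _ _ hk hk',
        L_ne _ _ _ _ _ _ _ hk]

end Pool.Agent.H.MP_59b15d_al.SP
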