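import Pool.Agent.H.MP_59b15d_al.sp.Pivot

/-!
# Reduction of elements of level `m` to one hyperbolic plane
-/

set_option autoImplicit false

namespace Pool.Agent.H.MP_59b15d_al.SP

variable {g : ℕ} {H : Type*} [Group H] {m : ℤ} {p : Sp g →* H}

/-- `A` fixes `e j` and `f j`. -/
def Fx (A : Sp g) (j : Fin g) : Prop := A (e j) = e j ∧ A (f j) = f j

lemma Fx.mul {A B : Sp g} {j : Fin g} (hA : Fx A j) (hB : Fx B j) : Fx (A * B) j :=
  ⟨by rw [sp_mul, hB.1, hA.1], by rw [sp_mul, hB.2, hA.2]⟩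

lemma Fx.inv {A : Sp g} {j : Fin g} (hA : Fx A j) : Fx A⁻¹ j :=
  ⟨by
    calc (A⁻¹) (e j) = (A⁻¹) (A (e j)) := by rw [hA.1]
      _ = e j := sp_inv_apply _ _,
   by
    calc (A⁻¹) (f j) = (A⁻¹) (A (f j)) := by rw [hA.2]
      _ = f j := sp_inv_apply _ _⟩

lemma om_e_of {v : V g} {l : Fin g} (h : v l = 0) : om (e l) v = 0 := by rw [om_e', h]; rfl
lemma om_f_of {v : V g} {l : Fin g} (h : v l = 0) : om (f l) v = 0 := by rw [om_f', h]; rfl

lemma Fx.T {v : V g} {l : Fin g} (h : v l = 0) (s : ℤ) : Fx (SP.T v s) l :=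
  ⟨by rw [T_apply, om_e_of h, mul_zero, zero_smul, add_zero],
   by rw [T_apply, om_f_of h, mul_zero, zero_smul, add_zero]⟩

lemma Fx.S {u v : V g} {l : Fin g} (hu : u l = 0) (hv : v l = 0) (s : ℤ) : Fx (SP.S u v s) l :=
  ((Fx.T (by rw [Pi.add_apply, hu, hv, add_zero]) s).mul (Fx.T hu _)).mul (Fx.T hv _)

/-- A number theoretic lemma. -/
lemma cop (d x y : ℤ) (hd : d ≠ 0)
    (h : ∀ q : ℕ, q.Prime → (q : ℤ) ∣ d → (q : ℤ) ∣ x → ¬ (q : ℤ) ∣ y) :
    ∃ s : ℤ, IsCoprime d (x + s * y) := by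
  classical
  obtain ⟨P, hP⟩ : ∃ P : Finset ℕ, P = d.natAbs.primeFactors.filter (fun q : ℕ => ¬ (q : ℤ) ∣ x) :=
    ⟨_, rfl⟩
  refine ⟨∏ q ∈ P, (q : ℤ), ?_⟩
  rw [Int.isCoprime_iff_gcd_eq_one, Int.gcd_eq_natAbs]
  refine Nat.Coprime.gcd_eq_one ?_
  by_contra hc
  obtain ⟨q, hq, hq1, hq2⟩ := Nat.Prime.not_coprime_iff_dvd.1 hc
  have hqd : (q : ℤ) ∣ d := Int.natCast_dvd.2 hq1
  have hqs : (q : ℤ) ∣ x + (∏ r ∈ P, (r : ℤ)) * y := Int.natCast_dvd.2 hq2
  have hqp : Prime (q : ℤ) := Nat.prime_iff_prime_int.1 hq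
  by_cases hx : (q : ℤ) ∣ x
  · have h1 : (q : ℤ) ∣ (∏ r ∈ P, (r : ℤ)) * y := (Int.dvd_iff_dvd_of_dvd_add hqs).1 hx
    rcases hqp.dvd_mul.1 h1 with h2 | h2
    · obtain ⟨r, hr, hr1⟩ := (Prime.dvd_finsetProd_iff hqp _).1 h2
      rw [hP, Finset.mem_filter] at hr
      have hr2 : q = r := (Nat.prime_dvd_prime_iff_eq hq (Nat.prime_of_mem_primeFactors hr.1)).1
        (by exact_mod_cast hr1)
      exact hr.2 (hr2 ▸ hx)
    · exact h q hq hqd hx h2
  · have h1 : q ∈ P := by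
      rw [hP, Finset.mem_filter]
      exact ⟨Nat.mem_primeFactors.2 ⟨hq, hq1, Int.natAbs_ne_zero.2 hd⟩, hx⟩
    have h2 : (q : ℤ) ∣ (∏ r ∈ P, (r : ℤ)) * y :=
      (Finset.dvd_prod_of_mem (fun r : ℕ => (r : ℤ)) h1).mul_right y
    exact hx ((Int.dvd_iff_dvd_of_dvd_add hqs).2 h2)

/-- Put the coordinates in `R` to zero. -/
def cut (R : Finset (Fin g)) (x : V g) : V g := fun l => if l ∈ R then 0 else x l

lemma cut_mem {R : Finset (Fin g)} {l : Fin g} (h : l ∈ R) (x : V g) : cut R x l = 0 := by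
  simp [cut, h]

lemma cut_not_mem {R : Finset (Fin g)} {l : Fin g} (h : l ∉ R) (x : V g) : cut R x l = x l := by
  simp [cut, h]

/-- `x ↦ om v (cut R x)` as a linear map. -/
def cutL (R : Finset (Fin g)) (v : V g) : V g →ₗ[ℤ] ℤ where
  toFun x := om v (cut R x)
  map_add' x y := by
    rw [← om_add_right]; congr 1
    funext l
    by_cases h : l ∈ R
    · rw [Pi.add_apply, cut_mem h, cut_mem h, cut_mem h, add_zero]
    · rw [Pi.add_apply, cut_not_mem h, cut_not_mem h, cut_not_mem h, Pi.add_apply]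
  map_smul' k x := by
    have : cut R (k • x) = k • cut R x := by
      funext l
      by_cases h : l ∈ R
      · rw [Pi.smul_apply, cut_mem h, cut_mem h, smul_zero]
      · rw [Pi.smul_apply, cut_not_mem h, cut_not_mem h, Pi.smul_apply]
    rw [this, om_smul_right]; rfl

lemma cutL_apply (R : Finset (Fin g)) (v x : V g) : cutL R v x = om v (cut R x) := rfl

/-- If `v` vanishes on `R`, then `om v x` is computed off `R`, up to the plane `j`. -/
lemma om_cut {R : Finset (Fin g)} {j : Fin g} (hj : j ∉ R) {v : V g} (hv : ∀ l ∈ R, v l = 0)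
    (x : V g) : om v x = (v j).1 * (x j).2 - (v j).2 * (x j).1 + om v (cut (insert j R) x) := by
  classical
  have h1 : ∀ l, ((v l).1 * (x l).2 - (v l).2 * (x l).1) =
      (if l = j then (v j).1 * (x j).2 - (v j).2 * (x j).1 else 0) +
      ((v l).1 * (cut (insert j R) x l).2 - (v l).2 * (cut (insert j R) x l).1) := by
    intro l
    by_cases h : l = j
    · subst h
      rw [cut_mem (Finset.mem_insert_self _ _)]
      simp
    · rw [if_neg h, zero_add]
      by_cases h2 : l ∈ R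
      · rw [cut_mem (Finset.mem_insert_of_mem h2), hv l h2]; simp
      · rw [cut_not_mem (by simp [h, h2])]
  rw [om, om, Finset.sum_congr rfl fun l _ => h1 l, Finset.sum_add_distrib]
  simp

/-- The key vector move. -/
theorem move (K : Kil m p) (hm : 2 ≤ m.natAbs) {R : Finset (Fin g)} {i j : Fin g} (hij : i ≠ j)
    (hi : i ∉ R) (hj : j ∉ R) (v u : V g) (hv : Dv m (v - e i)) (huv : om v u = 1)
    (hvS : ∀ l ∈ R, v l = 0) :
    ∃ k : Sp g, p k = 1 ∧ Cg m k ∧ k v = e i ∧ ∀ l ∈ R, Fx k l := by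
  classical
  -- the coordinates
  have ha : m ∣ (v i).1 - 1 := by
    have := hv.om_left (f i)
    rwa [om_sub_left, om_f, om_e_f] at this
  have hy : m ∣ (v j).2 := by
    have := hv.om_left (e j)
    rw [om_sub_left, om_e, om_e_e, sub_zero] at this
    exact (dvd_neg).1 this
  have ha0 : (v i).1 ≠ 0 := by
    intro h
    rw [h, zero_sub] at ha
    have := Int.natAbs_dvd_natAbs.2 ((dvd_neg).1 ha)
    have := Nat.le_of_dvd (by norm_num) this
    simp at this
    omega
  -- the generator `d`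
  obtain ⟨d, hd1, hd2⟩ : ∃ d : ℤ, (∃ w, om v (cut (insert j R) w) = d) ∧
      ∀ x, d ∣ om v (cut (insert j R) x) := by
    have hpr : (LinearMap.range (cutL (insert j R) v)).IsPrincipal := inferInstance
    obtain ⟨d, hd⟩ := hpr.principal
    refine ⟨d, ?_, fun x => ?_⟩
    · have : d ∈ LinearMap.range (cutL (insert j R) v) := by
        rw [hd]; exact Submodule.mem_span_singleton_self d
      exact this
    · have : om v (cut (insert j R) x) ∈ LinearMap.range (cutL (insert j R) v) := ⟨x, rfl⟩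
      rw [hd, Submodule.mem_span_singleton] at this
      obtain ⟨c, hc⟩ := this
      exact ⟨c, by rw [← hc, smul_eq_mul, mul_comm]⟩
  obtain ⟨w, hw⟩ := hd1
  have hda : d ∣ (v i).1 := by
    have := hd2 (f i)
    have h1 : cut (insert j R) (f i) = f i := by
      funext l
      by_cases hl : l ∈ insert j R
      · rw [cut_mem hl, f_ne]
        rintro rfl
        rcases Finset.mem_insert.1 hl with h | h
        · exact hij h
        · exact hi h
      · rw [cut_not_mem hl]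
    rwa [h1, om_f] at this
  have hd0 : d ≠ 0 := by
    rintro rfl
    exact ha0 (zero_dvd_iff.1 hda)
  have hdm : IsCoprime d m := by
    obtain ⟨t, ht⟩ := ha
    obtain ⟨r, hr⟩ := hda
    exact ⟨r, -t, by linarith [mul_comm d r, mul_comm m t, ht, hr]⟩
  obtain ⟨s, hs⟩ : ∃ s : ℤ, IsCoprime d ((v j).1 + s * (m * (v j).2)) := by
    refine cop d (v j).1 (m * (v j).2) hd0 fun q hq hqd hqx hqy => ?_
    have hqp : Prime (q : ℤ) := Nat.prime_iff_prime_int.1 hq
    have hqy' : (q : ℤ) ∣ (v j).2 := by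
      rcases hqp.dvd_mul.1 hqy with h | h
      · exact absurd (hdm.isUnit_of_dvd' hqd h) hqp.not_isUnit
      · exact h
    have h1 := om_cut hj hvS u
    rw [huv] at h1
    have h2 : (q : ℤ) ∣ 1 := by
      rw [h1]
      exact dvd_add (dvd_sub (hqx.mul_right _) (hqy'.mul_right _)) (hqd.trans (hd2 u))
    exact hqp.not_isUnit (isUnit_of_dvd_one h2)
  obtain ⟨α, β, hαβ⟩ := hs
  -- first move
  obtain ⟨v1, hv1⟩ : ∃ v1, v1 = T (e j) (-(m * s)) v := ⟨_, rfl⟩
  have hv1' : v1 = v + (s * (m * (v j).2)) • e j := by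
    rw [hv1, T_apply, om_e]; congr 2; ring
  obtain ⟨u', hu'⟩ : ∃ u', u' = α • cut (insert j R) w + β • f j := ⟨_, rfl⟩
  have hcj : ∀ x : V g, cut (insert j R) x j = 0 := fun x => cut_mem (Finset.mem_insert_self _ _) x
  have h1 : om v1 u' = 1 := by
    rw [hu', hv1', om_add_right, om_smul_right, om_smul_right, om_add_left, om_add_left,
      om_smul_left, om_smul_left, hw, om_f, om_e_f, om_e_of (hcj w)]
    linarith [hαβ]
  have h2 : om u' (f j) = 0 := by
    rw [hu', om_add_left, om_smul_left, om_smul_left, om_self, om_f, hcj]; simp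
  obtain ⟨n, hn⟩ : m ∣ 1 - (v i).1 - (v j).2 := by
    have := dvd_sub (ha.neg_right) hy
    rwa [neg_sub] at this
  have hnj : om (n • u') (f j) = 0 := by rw [om_smul_left, h2, mul_zero]
  obtain ⟨c, hc⟩ : ∃ c, c = -(m * n * ((u' j).2 + (u' i).1)) := ⟨_, rfl⟩
  obtain ⟨v3, hv3⟩ : ∃ v3, v3 = T (f j) c (S (n • u') (f j) m v1) := ⟨_, rfl⟩
  have hv1j : om v1 (f j) = (v j).1 + s * (m * (v j).2) := by
    rw [hv1', om_add_left, om_smul_left, om_f, om_e_f, mul_one]
  have hv3' : v3 = v1 + (m * n) • f j + (m * ((v j).1 + s * (m * (v j).2)) * n) • u' +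
      (c * ((v j).1 + s * (m * (v j).2))) • f j := by
    rw [hv3, S_apply hnj, T_apply]
    simp only [om_add_left, om_smul_left, om_smul_right, h1, h2, hv1j, om_self]
    module
  have hu'j : (u' j).1 = 0 := by rw [om_f] at h2; exact h2
  have hji : j ≠ i := hij.symm
  have h3i : (v3 i).1 = (v i).1 + m * ((v j).1 + s * (m * (v j).2)) * n * (u' i).1 := by
    rw [hv3', hv1']
    simp only [Pi.add_apply, Pi.smul_apply, e_ne hij, f_ne hij, Prod.fst_add, Prod.smul_fst,
      smul_eq_mul, Prod.fst_zero]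
    ring
  have h3j : (v3 j).2 = 1 - (v3 i).1 := by
    rw [h3i, hv3', hv1']
    simp only [Pi.add_apply, Pi.smul_apply, e_self, f_self, Prod.snd_add, Prod.smul_snd,
      smul_eq_mul]
    rw [hc]
    linear_combination -hn
  have hC1 : Cg m (T (f j) c * S (n • u') (f j) m * T (e j) (-(m * s))) := by
    refine ((Cg.T ?_ _).mul (Cg.S (dvd_refl m) _ _)).mul (Cg.T ?_ _)
    · rw [hc]; exact (((dvd_mul_right m n).mul_right _)).neg_right
    · exact (dvd_mul_right m s).neg_right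
  have hv3e : Dv m (v3 - e i) := by
    have := (hC1 v).add hv
    rw [sp_mul, sp_mul, ← hv1, ← hv3] at this
    simpa using this
  -- the level one conjugation
  have hee : om (e i) (e j) = 0 := om_e_e _ _
  obtain ⟨v4, hv4⟩ : ∃ v4, v4 = S (e i) (e j) (-1) v3 := ⟨_, rfl⟩
  have hge : S (e i) (e j) (-1) (e i : V g) = e i := by
    rw [S_apply hee, om_self, hee]; module
  have h4 : om v4 (f i) = 1 := by
    rw [om_f, hv4, S_apply hee]
    simp only [Pi.add_apply, Pi.smul_apply, Prod.fst_add, Prod.smul_fst, om_e, e_self, e_ne hij,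
      h3j, smul_eq_mul, Prod.fst_zero]
    ring
  have h4e : Dv m (v4 - e i) := by
    have := hv3e.map (S (e i) (e j) (-1))
    rw [sp_sub, hge, ← hv4] at this
    exact this
  obtain ⟨k, hk1, hk2, hk3, hk4, hk5, -⟩ := clear_e K i v4 h4e h4
  -- vanishing on `R`
  have hneS : ∀ {l}, l ∈ R → l ≠ i ∧ l ≠ j := fun {l} hl =>
    ⟨fun h => hi (h ▸ hl), fun h => hj (h ▸ hl)⟩
  have hu'S : ∀ l ∈ R, u' l = 0 := by
    intro l hl
    rw [hu', Pi.add_apply, Pi.smul_apply, Pi.smul_apply, cut_mem (Finset.mem_insert_of_mem hl),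
      f_ne (hneS hl).2, smul_zero, smul_zero, add_zero]
  have hv1S : ∀ l ∈ R, v1 l = 0 := by
    intro l hl
    rw [hv1', Pi.add_apply, Pi.smul_apply, hvS l hl, e_ne (hneS hl).2, smul_zero, add_zero]
  have hv3S : ∀ l ∈ R, v3 l = 0 := by
    intro l hl
    rw [hv3', Pi.add_apply, Pi.add_apply, Pi.add_apply, Pi.smul_apply, Pi.smul_apply,
      Pi.smul_apply, hv1S l hl, hu'S l hl, f_ne (hneS hl).2]
    simp
  have hv4S : ∀ l ∈ R, v4 l = 0 := by
    intro l hl
    rw [hv4, S_apply hee, Pi.add_apply, Pi.add_apply, Pi.smul_apply, Pi.smul_apply,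
      hv3S l hl, e_ne (hneS hl).2, e_ne (hneS hl).1, smul_zero, smul_zero, add_zero, add_zero]
  have hkS : ∀ l ∈ R, Fx k l := by
    intro l hl
    refine ⟨hk5 _ (om_e_of (hv4S l hl)) (om_e_f_ne (hneS hl).1) (om_e_e _ _),
      hk5 _ (om_f_of (hv4S l hl)) (om_f_f _ _) (om_f_e_ne (hneS hl).1)⟩
  have hgS : ∀ l ∈ R, Fx (S (e i) (e j) (-1) : Sp g) l := fun l hl =>
    Fx.S (e_ne (hneS hl).1) (e_ne (hneS hl).2) _
  refine ⟨(S (e i) (e j) (-1))⁻¹ * k⁻¹ * S (e i) (e j) (-1) *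
    (T (f j) c * S (n • u') (f j) m * T (e j) (-(m * s))), ?_, ?_, ?_, ?_⟩
  · have hc1 : m ∣ c := by rw [hc]; exact (((dvd_mul_right m n).mul_right _)).neg_right
    have hc2 : m ∣ -(m * s) := (dvd_mul_right m s).neg_right
    simp only [map_mul, map_inv, hk1, K.Tm _ hc1, K.Tm _ hc2, K.S _ _ (dvd_refl m)]
    simp
  · refine Cg.mul ?_ hC1
    have := hk2.inv.conj (S (e i) (e j) (-1))⁻¹
    rwa [inv_inv] at this
  · rw [sp_mul, sp_mul _ (T (e j) (-(m * s))), sp_mul (T (f j) c), ← hv1, ← hv3,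
      sp_mul, sp_mul, ← hv4, ← hk3, sp_inv_apply]
    calc ((S (e i) (e j) (-1))⁻¹) (e i : V g)
        = ((S (e i) (e j) (-1))⁻¹) (S (e i) (e j) (-1) (e i)) := by rw [hge]
      _ = e i := sp_inv_apply _ _
  · intro l hl
    refine Fx.mul (Fx.mul (Fx.mul (hgS l hl).inv (hkS l hl).inv) (hgS l hl)) ?_
    refine Fx.mul (Fx.mul (Fx.T (f_ne (hneS hl).2) _) (Fx.S ?_ (f_ne (hneS hl).2) _))
      (Fx.T (e_ne (hneS hl).2) _)
    rw [Pi.smul_apply, hu'S l hl, smul_zero]

/-- One step of the reduction. -/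
theorem step (K : Kil m p) (hm : 2 ≤ m.natAbs) {R : Finset (Fin g)} {i j : Fin g} (hij : i ≠ j)
    (hi : i ∉ R) (hj : j ∉ R) (A : Sp g) (hA : Cg m A) (hS : ∀ l ∈ R, Fx A l) :
    ∃ A' : Sp g, p A' = p A ∧ Cg m A' ∧ ∀ l ∈ insert i R, Fx A' l := by
  have hvS : ∀ l ∈ R, (A (e i)) l = 0 := by
    intro l hl
    have hne : i ≠ l := fun h => hi (h ▸ hl)
    have h1 := sp_om A (e i) (e l)
    have h2 := sp_om A (e i) (f l)
    rw [(hS l hl).1, om_e_e, om_e] at h1
    rw [(hS l hl).2, om_e_f_ne hne, om_f] at h2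
    exact Prod.ext h2 (by simpa using h1)
  obtain ⟨k, hk1, hk2, hk3, hk4⟩ := move K hm hij hi hj (A (e i)) (A (f i)) (hA (e i))
    (by rw [sp_om, om_e_f]) hvS
  obtain ⟨A', h1, h2, h3, h4, h5, -⟩ := fix_f K i (k * A) (hk2.mul hA) (by rw [sp_mul, hk3])
  refine ⟨A', by rw [h1, map_mul, hk1, one_mul], h2, ?_⟩
  intro l hl
  rcases Finset.mem_insert.1 hl with rfl | hl
  · exact ⟨h3, h4⟩
  · have hne : l ≠ i := fun h => hi (h ▸ hl)
    have h6 : Fx (k * A) l := (hk4 l hl).mul (hS l hl)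
    exact h5 l hne h6.1 h6.2

/-- Reduction to the plane `k`. -/
theorem reduce (K : Kil m p) (hm : 2 ≤ m.natAbs) (k : Fin g) (A : Sp g) (hA : Cg m A) :
    ∃ A' : Sp g, p A' = p A ∧ Cg m A' ∧ ∀ l, l ≠ k → Fx A' l := by
  classical
  have h : ∀ R : Finset (Fin g), k ∉ R →
      ∃ A' : Sp g, p A' = p A ∧ Cg m A' ∧ ∀ l ∈ R, Fx A' l := by
    intro R
    induction R using Finset.induction_on with
    | empty => exact fun _ => ⟨A, rfl, hA, fun l hl => absurd hl (Finset.notMem_empty l)⟩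
    | insert i R hi ih =>
      intro hk
      rw [Finset.mem_insert, not_or] at hk
      obtain ⟨A1, h1, h2, h3⟩ := ih hk.2
      obtain ⟨A2, h4, h5, h6⟩ := step K hm (Ne.symm hk.1) hi hk.2 A1 h2 h3
      exact ⟨A2, h4.trans h1, h5, h6⟩
  obtain ⟨A', h1, h2, h3⟩ := h (Finset.univ.erase k) (Finset.notMem_erase _ _)
  exact ⟨A', h1, h2, fun l hl => h3 l (Finset.mem_erase.2 ⟨hl, Finset.mem_univ _⟩)⟩

/-- An element fixing all planes but one fixes the orthogonal complement. -/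
lemma fix_perp {k : Fin g} {A : Sp g} (h : ∀ l, l ≠ k → Fx A l) {w : V g} (h1 : om w (e k) = 0)
    (h2 : om w (f k) = 0) : A w = w := by
  classical
  rw [om_e] at h1
  rw [om_f] at h2
  conv_lhs => rw [expand w]
  conv_rhs => rw [expand w]
  rw [show A (∑ i, ((w i).1 • e i + (w i).2 • f i)) =
    ∑ i, A ((w i).1 • e i + (w i).2 • f i) from map_sum A.1 _ _]
  refine Finset.sum_congr rfl fun i _ => ?_
  by_cases hi : i = k
  · subst hi
    rw [h2, show (w i).2 = 0 by omega, zero_smul, zero_smul, add_zero]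
    exact map_zero A.1
  · rw [sp_add, sp_smul, sp_smul, (h i hi).1, (h i hi).2]

/-- Elements of level `m` commute, up to the kernel, with everything that fixes a plane. -/
theorem central (K : Kil m p) (hm : 2 ≤ m.natAbs) (k : Fin g) (A B : Sp g) (hA : Cg m A)
    (hB : Fx B k) : p B * p A = p A * p B := by
  obtain ⟨A', h1, -, h3⟩ := reduce K hm k A hA
  rw [← h1, ← map_mul, ← map_mul]
  congr 1
  have hBe : ∀ x : V g, B (pr k x) = pr k (B x) := by
    intro x
    have h4 : om (B x) (f k) = om x (f k) := by rw [← sp_om B x (f k), hB.2]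
    have h5 : om (B x) (e k) = om x (e k) := by rw [← sp_om B x (e k), hB.1]
    rw [pr, pr, sp_add, sp_sub, sp_smul, sp_smul, hB.1, hB.2, h4, h5]
  have hA1 : ∀ w : V g, A' (pr k w) = pr k w := fun w => fix_perp h3 (om_pr_e k w) (om_pr_f k w)
  -- the image of the plane
  have hpl : ∀ x : V g, pr k x = 0 → pr k (A' x) = 0 := by
    intro x hx
    have h4 : ∀ w : V g, om (pr k w) (A' x) = 0 := by
      intro w
      rw [← hA1 w, sp_om, pr_eq k x, hx]
      simp only [om_add_right, om_sub_right, om_smul_right, om_pr_e, om_pr_f, om_zero_right]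
      ring
    refine om_ext fun w => ?_
    have h5 := h4 w
    rw [om_zero_right]
    have h6 : om w (pr k (A' x)) = om (pr k w) (A' x) := by
      rw [pr, pr]
      simp only [om_add_right, om_sub_right, om_smul_right, om_add_left, om_sub_left,
        om_smul_left, om_swap (f k) (A' x), om_swap (e k) (A' x)]
      ring
    rw [h6, h5]
  have hBp : ∀ x : V g, pr k x = 0 → B x = x := by
    intro x hx
    have := pr_eq k x
    rw [hx] at this
    rw [this]
    rw [sp_sub, sp_add, sp_smul, sp_smul, hB.1, hB.2]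
    rw [show B (0 : V g) = 0 from map_zero B.1]
  refine sp_ext fun x => ?_
  rw [sp_mul, sp_mul]
  have hx : x = pr k x + (x - pr k x) := by abel
  have hx0 : pr k (x - pr k x) = 0 := by
    rw [pr_sub, pr_of (om_pr_e k x) (om_pr_f k x), sub_self]
  rw [hx, sp_add A', hA1, sp_add B, sp_add B, hBp _ hx0, hBp _ (hpl _ hx0), sp_add A', hBe, hA1]

/-- Conjugation invariance. -/
theorem conj_inv (K : Kil m p) (hm : 2 ≤ m.natAbs) (k : Fin g) (A B : Sp g) (hA : Cg m A)
    (hB : Fx B k) : p (B * A * B⁻¹) = p A := by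
  rw [map_mul, map_mul, map_inv, central K hm k A B hA hB, mul_assoc, mul_inv_cancel, mul_one]

end Pool.Agent.H.MP_59b15d_al.SP
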