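import Mathlib
import Pool.Agent.H.MP_59b15d_al.h93s.Menn2
import Pool.Agent.H.MP_59b15d_al.sp.Block
import Pool.Agent.H.MP_59b15d_al.sp.Reduce

/-!
# Congruent SL_2-blocks die (g >= 3: commutation only with elements fixing a plane)
-/

set_option autoImplicit false

namespace Pool.Agent.H.MP_59b15d_al.SP.B3

open Finset Pool.Agent.H.MP_59b15d_al.h93s
open scoped IsMulCommutative

variable {g : ℕ}

/-- quadruples congruent to the identity -/
structure Q4 (m : ℕ) (a b c d : ℤ) : Prop where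
  det : a * d - b * c = 1
  ha : (m : ℤ) ∣ a - 1
  hb : (m : ℤ) ∣ b
  hc : (m : ℤ) ∣ c
  hd : (m : ℤ) ∣ d - 1

lemma Q4.adm {m : ℕ} {a b c d : ℤ} (h : Q4 m a b c d) : Adm m a b :=
  ⟨h.ha, h.hb, ⟨d, -c, by linear_combination h.det⟩⟩

lemma exists_Q4 {m : ℕ} {a b : ℤ} (h : Adm m a b) : ∃ c d, Q4 m a b c d := by
  obtain ⟨h1, h2, ⟨u, v, huv⟩⟩ := h
  obtain ⟨k, hk⟩ := h1
  obtain ⟨l, hl⟩ := h2
  -- c0 = -v, d0 = u;  c = c0 - c0 a,  d = d0 - c0 b
  refine ⟨-v + v * a, u + v * b, ⟨by linear_combination huv, ⟨k, hk⟩, ⟨l, hl⟩, ?_, ?_⟩⟩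
  · exact ⟨v * k, by linear_combination v * hk⟩
  · -- d - 1 = d (1 - a) + b c
    exact ⟨-(u + v * b) * k + l * (-v + v * a), by
      linear_combination -(u + v * b) * hk + (-v + v * a) * hl + huv⟩

lemma Dv_iff {m : ℤ} {u : V g} : Dv m u ↔ ∀ k, m ∣ (u k).1 ∧ m ∣ (u k).2 := by
  constructor
  · rintro ⟨u', rfl⟩ k
    exact ⟨⟨(u' k).1, by simp⟩, ⟨(u' k).2, by simp⟩⟩
  · intro h
    choose h1 h2 using h
    choose p hp using h1
    choose q hq using h2
    refine ⟨fun k => (p k, q k), ?_⟩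
    funext k
    ext
    · simp [hp k]
    · simp [hq k]

lemma Cg_L {m : ℕ} {a b c d : ℤ} (h : Q4 m a b c d) (i : Fin g) : Cg (m : ℤ) (L i a b c d h.det) := by
  intro x
  rw [Dv_iff]
  intro k
  rw [Pi.sub_apply]
  by_cases hk : k = i
  · subst hk
    rw [L_self]
    constructor
    · have : (a * (x k).1 + b * (x k).2) - (x k).1 = (a - 1) * (x k).1 + b * (x k).2 := by ring
      change (m : ℤ) ∣ (a * (x k).1 + b * (x k).2) - (x k).1
      rw [this]
      exact dvd_add (h.ha.mul_right _) (h.hb.mul_right _)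
    · have : (c * (x k).1 + d * (x k).2) - (x k).2 = c * (x k).1 + (d - 1) * (x k).2 := by ring
      change (m : ℤ) ∣ (c * (x k).1 + d * (x k).2) - (x k).2
      rw [this]
      exact dvd_add (h.hc.mul_right _) (h.hd.mul_right _)
  · rw [L_ne _ _ _ _ _ _ _ hk, sub_self]
    exact ⟨dvd_zero _, dvd_zero _⟩

/-- the fixer of a plane -/
def Fix (k0 : Fin g) : Subgroup (Sp g) where
  carrier := {B | Fx B k0}
  mul_mem' := fun h1 h2 => h1.mul h2
  one_mem' := ⟨rfl, rfl⟩
  inv_mem' := fun h => h.inv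

lemma Fx_L {i k0 : Fin g} (h0 : k0 ≠ i) (a b c d : ℤ) (h : a * d - b * c = 1) :
    Fx (L i a b c d h) k0 := by
  constructor
  · funext k
    by_cases hk : k = i
    · subst hk
      rw [L_self, e_ne h0.symm]
      ext <;> simp
    · rw [L_ne _ _ _ _ _ _ _ hk]
  · funext k
    by_cases hk : k = i
    · subst hk
      rw [L_self, f_ne h0.symm]
      ext <;> simp
    · rw [L_ne _ _ _ _ _ _ _ hk]

lemma Fx_H {i j k0 : Fin g} (hij : i ≠ j) (h0 : k0 ≠ i) (h0' : k0 ≠ j) (a b c d : ℤ)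
    (h : a * d - b * c = 1) : Fx (H hij a b c d h) k0 := by
  constructor
  · funext k
    by_cases hk : k = i
    · subst hk
      rw [H_i, e_ne h0.symm, e_ne h0'.symm]
      ext <;> simp
    · by_cases hk' : k = j
      · subst hk'
        rw [H_j, e_ne h0.symm, e_ne h0'.symm]
        ext <;> simp
      · rw [H_ne _ _ _ _ _ _ _ hk hk']
  · funext k
    by_cases hk : k = i
    · subst hk
      rw [H_i, f_ne h0.symm, f_ne h0'.symm]
      ext <;> simp
    · by_cases hk' : k = j
      · subst hk'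
        rw [H_j, f_ne h0.symm, f_ne h0'.symm]
        ext <;> simp
      · rw [H_ne _ _ _ _ _ _ _ hk hk']

section rep

variable {W : Type*} [Group W] (π : Sp g →* W) {m : ℕ}

lemma pi_T (hT : ∀ v : V g, π (T v m) = 1) {s : ℤ} (hs : (m : ℤ) ∣ s) (v : V g) : π (T v s) = 1 := by
  obtain ⟨k, rfl⟩ := hs
  rw [← T_zpow, map_zpow, hT, one_zpow]

lemma pi_S (hT : ∀ v : V g, π (T v m) = 1) {s : ℤ} (hs : (m : ℤ) ∣ s) (u w : V g) : π (S u w s) = 1 := by
  rw [S, map_mul, map_mul, pi_T π hT hs, pi_T π hT hs.neg_right, pi_T π hT hs.neg_right]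
  simp

/-- the value on a long block depends only on the first row -/
lemma pi_L_congr (hT : ∀ v : V g, π (T v m) = 1) (i : Fin g) {a b c d c' d' : ℤ} (h : Q4 m a b c d)
    (h' : Q4 m a b c' d') : π (L i a b c' d' h'.det) = π (L i a b c d h.det) := by
  have key : L i a b c' d' h'.det = T (f i) (c' * d - d' * c) * L i a b c d h.det := by
    refine sp_ext fun x => ?_
    rw [sp_mul]
    funext k
    have e1 := h.det
    have e2 := h'.det
    by_cases hk : k = i
    · subst hk
      rw [T_f_i, L_self, L_self]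
      ext
      · rfl
      · simp only
        grind
    · rw [T_f_ne hk, L_ne _ _ _ _ _ _ _ hk, L_ne _ _ _ _ _ _ _ hk]
  rw [key, map_mul, pi_T π hT, one_mul]
  exact dvd_sub (h'.hc.mul_right _) (h.hc.mul_left _)

variable {k0 : Fin g} (hc : ∀ A : Sp g, Cg (m : ℤ) A → ∀ B : Sp g, Fx B k0 → Commute (π A) (π B))

include hc in
lemma pi_conj {A B : Sp g} (hA : Cg (m : ℤ) A) (hB : Fx B k0) : π (B * A * B⁻¹) = π A := by
  rw [map_mul, map_mul, map_inv, ← (hc A hA B hB).eq, mul_assoc, mul_inv_cancel, mul_one]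

/-- swapping two handles -/
def σ {i j : Fin g} (hij : i ≠ j) : Sp g := H hij 0 1 (-1) 0 (by norm_num)

lemma σ_L {i j : Fin g} (hij : i ≠ j) (a b c d : ℤ) (h : a * d - b * c = 1) :
    σ hij * L j a b c d h = L i a b c d h * σ hij := by
  refine sp_ext fun x => ?_
  rw [sp_mul, sp_mul]
  funext k
  by_cases hk : k = i
  · subst hk
    rw [σ, H_i, L_ne _ _ _ _ _ _ _ hij, L_self, L_self, H_i]
    ext <;> simp
  · by_cases hk' : k = j
    · subst hk'
      rw [σ, H_j, L_self, L_ne _ _ _ _ _ _ _ hij, L_ne _ _ _ _ _ _ _ hij.symm, H_j]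
      ext <;> simp
    · rw [σ, H_ne _ _ _ _ _ _ _ hk hk', L_ne _ _ _ _ _ _ _ hk', L_ne _ _ _ _ _ _ _ hk,
        H_ne _ _ _ _ _ _ _ hk hk']

include hc in
lemma pi_swap {i j : Fin g} (hij : i ≠ j) (h0 : k0 ≠ i) (h0' : k0 ≠ j) {a b c d : ℤ} (h : Q4 m a b c d) :
    π (L j a b c d h.det) = π (L i a b c d h.det) := by
  have h1 : L i a b c d h.det = σ hij * L j a b c d h.det * (σ hij)⁻¹ := by
    rw [σ_L, mul_assoc, mul_inv_cancel, mul_one]
  rw [h1, pi_conj π hc (B := σ hij) (Cg_L h j) (Fx_H hij h0 h0' _ _ _ _ _)]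

end rep

section symb

variable {W : Type*} [Group W] (π : Sp g →* W) {m : ℕ}

/-- the symbol, with values in the centre of the image -/
noncomputable def sy (m : ℕ) {k0 : Fin g}
    (hc : ∀ A : Sp g, Cg (m : ℤ) A → ∀ B : Sp g, Fx B k0 → Commute (π A) (π B))
    {i : Fin g} (h0 : k0 ≠ i) (a b : ℤ) : Subgroup.center ((Fix k0).map π) :=
  open Classical in
  if h : ∃ cd : ℤ × ℤ, Q4 m a b cd.1 cd.2 then
    ⟨⟨π (L i a b h.choose.1 h.choose.2 h.choose_spec.det),
        Subgroup.mem_map_of_mem π (Fx_L h0 _ _ _ _ _ : L i a b _ _ h.choose_spec.det ∈ Fix k0)⟩, by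
      rw [Subgroup.mem_center_iff]
      rintro ⟨_, B, hB, rfl⟩
      apply Subtype.ext
      exact (hc _ (Cg_L h.choose_spec i) B hB).symm.eq⟩
  else 1

variable (hT : ∀ v : V g, π (T v m) = 1)
  {k0 : Fin g} (hc : ∀ A : Sp g, Cg (m : ℤ) A → ∀ B : Sp g, Fx B k0 → Commute (π A) (π B))

include hT in
lemma sy_eq {i : Fin g} (h0 : k0 ≠ i) {a b c d : ℤ} (h : Q4 m a b c d) :
    ((sy π m hc h0 a b : (Fix k0).map π) : W) = π (L i a b c d h.det) := by
  have hex : ∃ cd : ℤ × ℤ, Q4 m a b cd.1 cd.2 := ⟨(c, d), h⟩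
  rw [sy, dif_pos hex]
  change π (L i a b hex.choose.1 hex.choose.2 hex.choose_spec.det) = _
  exact pi_L_congr π hT i h hex.choose_spec

lemma center_ext {k0 : Fin g} {x y : Subgroup.center ((Fix k0).map π)}
    (h : ((x : (Fix k0).map π) : W) = ((y : (Fix k0).map π) : W)) :
    x = y := Subtype.ext (Subtype.ext h)

include hT in
lemma isSymb {i j : Fin g} (hij : i ≠ j) (h0 : k0 ≠ i) (h0' : k0 ≠ j) :
    IsSymb m (sy π m hc h0) where
  one := by
    intro b hb
    have h : Q4 m 1 b 0 1 := ⟨by ring, by simp, hb, dvd_zero _, by simp⟩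
    apply center_ext π
    rw [sy_eq π hT hc h0 h]
    have : L i 1 b 0 1 h.det = T (e i) (-b) := by
      refine sp_ext fun x => ?_
      funext k
      by_cases hk : k = i
      · subst hk
        rw [L_self, T_e_i]
        ext <;> simp
      · rw [L_ne _ _ _ _ _ _ _ hk, T_e_ne hk]
    rw [this, pi_T π hT hb.neg_right]
    rfl
  right := by
    intro a b t hab ht
    obtain ⟨c, d, h⟩ := exists_Q4 hab
    have h' : Q4 m a (b + t * a) c (d + t * c) :=
      ⟨by linear_combination h.det, h.ha, dvd_add h.hb (ht.mul_right _), h.hc, by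
        have : d + t * c - 1 = (d - 1) + t * c := by ring
        rw [this]; exact dvd_add h.hd (ht.mul_right _)⟩
    apply center_ext π
    rw [sy_eq π hT hc h0 h, sy_eq π hT hc h0 h']
    have : L i a (b + t * a) c (d + t * c) h'.det = L i a b c d h.det * T (e i) (-t) := by
      refine sp_ext fun x => ?_
      rw [sp_mul]
      funext k
      by_cases hk : k = i
      · subst hk
        rw [L_self, L_self, T_e_i]
        ext
        · simp only
          ring
        · simp only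
          ring
      · rw [L_ne _ _ _ _ _ _ _ hk, L_ne _ _ _ _ _ _ _ hk, T_e_ne hk]
    rw [this, map_mul, pi_T π hT ht.neg_right, mul_one]
  left := by
    intro a b t hab
    obtain ⟨c, d, h⟩ := exists_Q4 hab
    have h' : Q4 m (a + t * b) b (c + t * d - t * (a + t * b)) (d - t * b) :=
      ⟨by linear_combination h.det, by
        have : a + t * b - 1 = (a - 1) + t * b := by ring
        rw [this]; exact dvd_add h.ha (h.hb.mul_left _), h.hb, by
        have : c + t * d - t * (a + t * b) = c + t * (d - 1) - t * (a - 1) - t * t * b := by ring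
        rw [this]
        exact dvd_sub (dvd_sub (dvd_add h.hc (h.hd.mul_left _)) (h.ha.mul_left _)) (h.hb.mul_left _), by
        have : d - t * b - 1 = (d - 1) - t * b := by ring
        rw [this]; exact dvd_sub h.hd (h.hb.mul_left _)⟩
    apply center_ext π
    rw [sy_eq π hT hc h0 h, sy_eq π hT hc h0 h']
    have : L i (a + t * b) b (c + t * d - t * (a + t * b)) (d - t * b) h'.det =
        T (f i) (-t) * L i a b c d h.det * (T (f i) (-t))⁻¹ := by
      rw [T_inv, neg_neg]
      refine sp_ext fun x => ?_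
      rw [sp_mul, sp_mul]
      funext k
      by_cases hk : k = i
      · subst hk
        rw [L_self, T_f_i, L_self, T_f_i]
        ext
        · simp only
          ring
        · simp only
          ring
      · rw [L_ne _ _ _ _ _ _ _ hk, T_f_ne hk, L_ne _ _ _ _ _ _ _ hk, T_f_ne hk]
    rw [this, pi_conj π hc (Cg_L h i) (Fx.T (f_ne h0) _)]
  sq := by
    intro a s b hs hb
    obtain ⟨c1, d1, h1⟩ := exists_Q4 hs
    -- the short block
    have gen : ∀ {b2 c2 d2 : ℤ} (h2 : Q4 m a b2 c2 d2),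
        ((sy π m hc h0 a (s ^ 2 * b2) : (Fix k0).map π) : W) =
          π (H hij a s c1 d1 h1.det) * ((sy π m hc h0 a b2 : (Fix k0).map π) : W) := by
      intro b2 c2 d2 h2
      have hQ : Q4 m a (s ^ 2 * b2) (c1 ^ 2 * c2) (d1 - s * c1 * d2 + c1 * c2 * d1 * s * b2) :=
        ⟨det_prod h1.det h2.det, h1.ha, h2.hb.mul_left _, h2.hc.mul_left _, by
          have : d1 - s * c1 * d2 + c1 * c2 * d1 * s * b2 - 1 =
            (d1 - 1) - s * (c1 * d2) + s * (c1 * c2 * d1 * b2) := by ring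
          rw [this]
          exact dvd_add (dvd_sub h1.hd (hs.2.1.mul_right _)) (hs.2.1.mul_right _)⟩
      have key := congrArg π (square_identity hij h1.det h2.det)
      have hs' := hs.2.1
      simp only [map_mul] at key
      rw [pi_S π hT hs'.neg_right, pi_T π hT (by
          have : d1 * b2 - c1 * d1 * s * b2 = b2 * (d1 - c1 * d1 * s) := by ring
          rw [this]; exact h2.hb.mul_right _),
        pi_S π hT (h2.hb.mul_left _), pi_S π hT h1.hc.neg_right, pi_T π hT (h2.hc.mul_left _),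
        pi_S π hT (by
          rw [dvd_neg]; exact h2.hc.mul_left _), mul_one, mul_one, mul_one, mul_one, one_mul,
        one_mul] at key
      rw [sy_eq π hT hc h0 h2, sy_eq π hT hc h0 hQ, ← key, pi_swap π hc hij h0 h0' h2]
    obtain ⟨c2, d2, h2⟩ := exists_Q4 hb
    obtain ⟨c3, d3, h3⟩ := exists_Q4 hb.self
    have g2 := gen h2
    have g3 := gen h3
    -- `sy a m = 1`
    have hm1 : ((sy π m hc h0 a m : (Fix k0).map π) : W) = 1 := by
      obtain ⟨k, hk⟩ := h3.ha
      have h4 : Q4 m 1 (m : ℤ) 0 1 := ⟨by ring, by simp, dvd_refl _, dvd_zero _, by simp⟩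
      have hQ : Q4 m (1 + k * m) (m : ℤ) (0 + k * 1 - k * (1 + k * m)) (1 - k * m) :=
        ⟨by ring, ⟨k, by ring⟩, dvd_refl _, ⟨-(k ^ 2), by ring⟩, ⟨-k, by ring⟩⟩
      have ha : a = 1 + k * m := by linear_combination hk
      have e1 : ((sy π m hc h0 a m : (Fix k0).map π) : W) = π (L i (1 + k * m) m _ _ hQ.det) := by
        rw [ha]; exact sy_eq π hT hc h0 hQ
      rw [e1]
      have : L i (1 + k * m) m _ _ hQ.det =
          T (f i) (-k) * T (e i) (-m) * (T (f i) (-k))⁻¹ := by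
        rw [T_inv, neg_neg]
        refine sp_ext fun x => ?_
        rw [sp_mul, sp_mul]
        funext l
        by_cases hl : l = i
        · subst hl
          rw [L_self, T_f_i, T_e_i, T_f_i]
          ext
          · simp only
            ring
          · simp only
            ring
        · rw [L_ne _ _ _ _ _ _ _ hl, T_f_ne hl, T_e_ne hl, T_f_ne hl]
      rw [this, map_mul, map_mul, pi_T π hT (dvd_refl _).neg_right, mul_one, ← map_mul,
        mul_inv_cancel, map_one]
    apply center_ext π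
    change ((sy π m hc h0 a (s ^ 2 * b) : (Fix k0).map π) : W) =
      ((sy π m hc h0 a (s ^ 2 * m) : (Fix k0).map π) : W) * ((sy π m hc h0 a b : (Fix k0).map π) : W)
    rw [g2, g3, hm1, mul_one]

include hT hc in
/-- congruent long blocks are trivial -/
theorem block_trivial (hm : 2 ≤ m) {i j : Fin g} (hij : i ≠ j) (h0 : k0 ≠ i) (h0' : k0 ≠ j)
    {a b c d : ℤ} (h : Q4 m a b c d) :
    π (L i a b c d h.det) = 1 := by
  have h1 := (isSymb π hT hc hij h0 h0').trivial hm h.adm
  rw [← sy_eq π hT hc h0 h, h1]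
  rfl

/-- congruent long blocks are trivial, `g ≥ 3` -/
theorem block_kil {W : Type*} [Group W] {p : Sp g →* W} {m : ℤ} (K : Kil m p) (hm : 2 ≤ m.natAbs)
    {i j k0 : Fin g} (hij : i ≠ j) (h0 : k0 ≠ i) (h0' : k0 ≠ j) {a b c d : ℤ}
    (h : a * d - b * c = 1) (ha : m ∣ a - 1) (hb : m ∣ b) (hc : m ∣ c) (hd : m ∣ d - 1) :
    p (L i a b c d h) = 1 := by
  have hT : ∀ v : V g, p (T v (m.natAbs : ℕ)) = 1 := fun v => K.Tm v (by simp)
  have hcg : ∀ A : Sp g, Cg ((m.natAbs : ℕ) : ℤ) A → Cg m A := by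
    intro A hA x
    rw [Dv_iff]
    intro k
    have := Dv_iff.1 (hA x) k
    exact ⟨Int.natAbs_dvd.1 this.1, Int.natAbs_dvd.1 this.2⟩
  have hc' : ∀ A : Sp g, Cg ((m.natAbs : ℕ) : ℤ) A → ∀ B : Sp g, Fx B k0 → Commute (p A) (p B) :=
    fun A hA B hB => (central K hm k0 A B (hcg A hA) hB).symm
  exact block_trivial p hT hc' hm hij h0 h0'
    ⟨h, Int.natAbs_dvd.2 ha, Int.natAbs_dvd.2 hb, Int.natAbs_dvd.2 hc, Int.natAbs_dvd.2 hd⟩

end symb

end Pool.Agent.H.MP_59b15d_al.SP.B3
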