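import Pool.Agent.H.MP_59b15d_al.sp.Reduce

/-!
# Elements which fix all planes but one
-/

set_option autoImplicit false

namespace Pool.Agent.H.MP_59b15d_al.SP

variable {g : ℕ} {m : ℤ}

/-- An element fixing all planes but `k` is given by a `2 × 2` matrix. -/
theorem plane {k : Fin g} {A : Sp g} (h : ∀ l, l ≠ k → Fx A l) :
    ∃ a b c d : ℤ, a * d - b * c = 1 ∧ A (e k) = a • e k + c • f k ∧
      A (f k) = b • e k + d • f k ∧
      (∀ x, A x = x + ((a - 1) * (x k).1 + b * (x k).2) • e k +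
        (c * (x k).1 + (d - 1) * (x k).2) • f k) ∧
      (Cg m A → m ∣ a - 1 ∧ m ∣ b ∧ m ∣ c ∧ m ∣ d - 1) := by
  have hpl : ∀ x : V g, pr k x = 0 → pr k (A x) = 0 := by
    intro x hx
    refine om_ext fun w => ?_
    have h6 : om w (pr k (A x)) = om (pr k w) (A x) := by
      rw [pr, pr]
      simp only [om_add_right, om_sub_right, om_smul_right, om_add_left, om_sub_left,
        om_smul_left, om_swap (f k) (A x), om_swap (e k) (A x)]
      ring
    rw [om_zero_right, h6, ← fix_perp h (om_pr_e k w) (om_pr_f k w), sp_om, pr_eq k x, hx]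
    simp only [om_add_right, om_sub_right, om_smul_right, om_pr_e, om_pr_f, om_zero_right]
    ring
  have he : A (e k) = (A (e k) k).1 • e k + (A (e k) k).2 • f k := by
    have h1 := pr_eq k (A (e k))
    rw [hpl _ (pr_e k), om_f, om_e] at h1
    conv_lhs => rw [h1]
    module
  have hf : A (f k) = (A (f k) k).1 • e k + (A (f k) k).2 • f k := by
    have h1 := pr_eq k (A (f k))
    rw [hpl _ (pr_f k), om_f, om_e] at h1
    conv_lhs => rw [h1]
    module
  obtain ⟨a, ha⟩ : ∃ a, a = (A (e k) k).1 := ⟨_, rfl⟩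
  obtain ⟨b, hb⟩ : ∃ b, b = (A (f k) k).1 := ⟨_, rfl⟩
  obtain ⟨c, hc⟩ : ∃ c, c = (A (e k) k).2 := ⟨_, rfl⟩
  obtain ⟨d, hd⟩ : ∃ d, d = (A (f k) k).2 := ⟨_, rfl⟩
  rw [← ha, ← hc] at he
  rw [← hb, ← hd] at hf
  refine ⟨a, b, c, d, ?_, he, hf, ?_, ?_⟩
  · have h1 := sp_om A (e k) (f k)
    rw [he, hf, om_e_f] at h1
    simp only [om_add_left, om_add_right, om_smul_left, om_smul_right, om_self, om_e_f,
      om_f_e] at h1
    linear_combination h1
  · intro x
    have h1 : A x = A (pr k x) + (x k).1 • A (e k) + (x k).2 • A (f k) := by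
      conv_lhs => rw [pr_eq k x, om_f, om_e]
      rw [sp_sub, sp_add, sp_smul, sp_smul]
      module
    rw [h1, fix_perp h (om_pr_e k x) (om_pr_f k x), he, hf, pr, om_f, om_e]
    module
  · intro hA
    have h1 := (hA (e k)).om_left (f k)
    have h2 := (hA (e k)).om_left (e k)
    have h3 := (hA (f k)).om_left (f k)
    have h4 := (hA (f k)).om_left (e k)
    rw [om_sub_left, om_f, om_e_f, ← ha] at h1
    rw [om_sub_left, om_e, om_self, sub_zero, ← hc] at h2
    rw [om_sub_left, om_f, om_self, sub_zero, ← hb] at h3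
    rw [om_sub_left, om_e, om_f_e, ← hd] at h4
    refine ⟨h1, h3, (dvd_neg).1 h2, ?_⟩
    have h5 : -(d - 1) = -d - -1 := by ring
    rw [← dvd_neg, h5]
    exact h4

end Pool.Agent.H.MP_59b15d_al.SP
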