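import Pool.Agent.H.MP_59b15d_al.h11c.Hone
import Pool.Agent.H.MP_59b15d_al.sp.Block3
import Pool.Agent.H.MP_59b15d_al.sp.Plane

/-!
# The congruence subgroup property of `Sp(2g, Z)`, `g ≥ 3`

The principal congruence subgroup of level `m ≠ 0` is the normal closure of `T (e k) m`
(Bass–Milnor–Serre, Mennicke).
-/

set_option autoImplicit false

namespace Pool.Agent.H.MP_59b15d_al.SP

variable {g : ℕ} {W : Type*} [Group W]

/-- A homomorphism which kills the transvections is trivial. -/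
theorem kil_one (p : Sp g →* W) (hT : ∀ v, p (T v 1) = 1) (A : Sp g) : p A = 1 := by
  have h : (⊤ : Subgroup (Sp g)) ≤ p.ker := by
    rw [← hum_eq_top, Hum, Subgroup.closure_le]
    rintro A (⟨i, rfl⟩ | ⟨i, rfl⟩ | ⟨i, j, -, rfl⟩)
    · exact hT _
    · exact hT _
    · exact hT _
  exact h (Subgroup.mem_top A)

/-- A homomorphism which kills the `m`-th powers of the transvections kills the principal
congruence subgroup of level `m`. -/
theorem cg_kil (hg : 3 ≤ g) {p : Sp g →* W} {m : ℤ} (K : Kil m p) {A : Sp g} (hA : Cg m A) :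
    p A = 1 := by
  rcases Nat.lt_or_ge m.natAbs 2 with h1 | h2
  · have h0 := K.ne
    have hm : m ∣ 1 := by
      rw [← Int.natAbs_dvd]
      have : m.natAbs = 1 := by omega
      rw [this]
      exact dvd_refl _
    exact kil_one p (fun v => K.Tm v hm) A
  · obtain ⟨k, hk⟩ : ∃ k : Fin g, (k : ℕ) = 0 := ⟨⟨0, by omega⟩, rfl⟩
    obtain ⟨j, hj⟩ : ∃ j : Fin g, (j : ℕ) = 1 := ⟨⟨1, by omega⟩, rfl⟩
    obtain ⟨l, hl⟩ : ∃ l : Fin g, (l : ℕ) = 2 := ⟨⟨2, by omega⟩, rfl⟩
    have hkj : k ≠ j := fun h => by rw [h] at hk; omega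
    have hlk : l ≠ k := fun h => by rw [h] at hl; omega
    have hlj : l ≠ j := fun h => by rw [h] at hl; omega
    obtain ⟨A', hp, hc, hf⟩ := reduce K h2 k A hA
    obtain ⟨a, b, c, d, hdet, -, -, hx, hcg⟩ := plane hf
    obtain ⟨h3, h4, h5, h6⟩ := hcg hc
    have hA' : A' = L k a b c d hdet := by
      refine sp_ext fun x => ?_
      rw [hx]
      funext i
      by_cases hi : i = k
      · subst hi
        rw [L_self]
        simp only [Pi.add_apply, Pi.smul_apply, e_self, f_self]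
        ext
        · simp; ring
        · simp; ring
      · rw [L_ne _ _ _ _ _ _ _ hi]
        simp only [Pi.add_apply, Pi.smul_apply, e_ne hi, f_ne hi, smul_zero, add_zero]
    rw [← hp, hA']
    exact B3.block_kil K h2 hkj hlk hlj hdet h3 h4 h5 h6

/-- A normal subgroup which contains one transvection of level `m` contains the principal
congruence subgroup of level `m`. -/
theorem cg_mem (hg : 3 ≤ g) {N : Subgroup (Sp g)} [N.Normal] {m : ℤ} (hm : m ≠ 0) {k : Fin g}
    (hN : T (e k) m ∈ N) {A : Sp g} (hA : Cg m A) : A ∈ N := by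
  have hK : Kil m (QuotientGroup.mk' N) :=
    ⟨hm, fun v => kills_all (k := k) _ ((QuotientGroup.eq_one_iff _).2 hN) v⟩
  exact (QuotientGroup.eq_one_iff _).1 (cg_kil hg hK hA)

/-- The congruence subgroup property. -/
theorem csp (hg : 3 ≤ g) (N : Subgroup (Sp g)) [N.FiniteIndex] :
    ∃ m : ℤ, 0 < m ∧ ∀ A : Sp g, Cg m A → A ∈ N := by
  obtain ⟨k, -⟩ : ∃ k : Fin g, (k : ℕ) = 0 := ⟨⟨0, by omega⟩, rfl⟩
  obtain ⟨n, hn, hpow⟩ : ∃ n : ℕ, 0 < n ∧ (T (e k) 1) ^ n ∈ N.normalCore := by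
    refine ⟨N.normalCore.index, Nat.pos_of_ne_zero (Subgroup.FiniteIndex.index_ne_zero), ?_⟩
    exact Subgroup.pow_index_mem _ _
  refine ⟨n, by exact_mod_cast hn, fun A hA => N.normalCore_le ?_⟩
  refine cg_mem (k := k) hg (by exact_mod_cast hn.ne') ?_ hA
  rw [← zpow_natCast, T_zpow, one_mul] at hpow
  exact hpow

end Pool.Agent.H.MP_59b15d_al.SP
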