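import Pool.Agent.H.MP_59b15d_al.sp.Base

/-!
# The pivot lemma

`p : Sp g →* H` kills all `T v m`. If `Z = 1` modulo `m` and the `e i`-coefficient of `Z (e i)`
is `1`, then `p Z = p Z'` with `Z'` fixing `e i`, `f i`, given by the Schur complement elsewhere.
-/

set_option autoImplicit false

namespace Pool.Agent.H.MP_59b15d_al.SP

variable {g : ℕ} {H : Type*} [Group H]

/-- `p` kills all `m`-th powers of transvections. -/
structure Kil (m : ℤ) (p : Sp g →* H) : Prop where
  ne : m ≠ 0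
  T : ∀ v : V g, p (SP.T v m) = 1

variable {m : ℤ} {p : Sp g →* H}

lemma Kil.Tm (K : Kil m p) (v : V g) {s : ℤ} (hs : m ∣ s) : p (SP.T v s) = 1 := by
  obtain ⟨k, rfl⟩ := hs
  rw [← T_zpow, map_zpow, K.T, one_zpow]

lemma Kil.S (K : Kil m p) (u w : V g) {s : ℤ} (hs : m ∣ s) : p (SP.S u w s) = 1 := by
  rw [SP.S, map_mul, map_mul, K.Tm _ hs, K.Tm _ hs.neg_right, K.Tm _ hs.neg_right]
  simp

lemma Kil.S' (K : Kil m p) {u w : V g} (hu : Dv m u) (h : om u w = 0) (s : ℤ) :
    p (SP.S u w s) = 1 := by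
  obtain ⟨u', rfl⟩ := hu
  have h' : om u' w = 0 := by
    rw [om_smul_left] at h
    exact (mul_eq_zero.1 h).resolve_left K.ne
  have h1 : SP.S (m • u') w s = SP.S u' w (m * s) := by
    refine sp_ext fun x => ?_
    rw [S_apply h, S_apply h', om_smul_right]
    module
  rw [h1]
  exact K.S _ _ (dvd_mul_right _ _)

/-- Projection to the orthogonal complement of `e i, f i`. -/
def pr (i : Fin g) (x : V g) : V g := x - om x (f i) • e i + om x (e i) • f i

lemma pr_eq (i : Fin g) (x : V g) : x = pr i x + om x (f i) • e i - om x (e i) • f i := by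
  rw [pr]; abel

lemma pr_e (i : Fin g) : pr i (e i) = 0 := by
  rw [pr, om_e_f, om_self]; module

lemma pr_f (i : Fin g) : pr i (f i) = 0 := by
  rw [pr, om_f_e, om_self]; module

lemma pr_add (i : Fin g) (x y : V g) : pr i (x + y) = pr i x + pr i y := by
  simp only [pr, om_add_left]; module

lemma pr_smul (i : Fin g) (k : ℤ) (x : V g) : pr i (k • x) = k • pr i x := by
  simp only [pr, om_smul_left]; module

lemma pr_neg (i : Fin g) (x : V g) : pr i (-x) = -pr i x := by
  simp only [pr, om_neg_left]; module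

lemma pr_sub (i : Fin g) (x y : V g) : pr i (x - y) = pr i x - pr i y := by
  simp only [pr, om_sub_left]; module

lemma om_pr_e (i : Fin g) (x : V g) : om (pr i x) (e i) = 0 := by
  rw [pr, om_add_left, om_sub_left, om_smul_left, om_smul_left, om_self, om_f_e]; ring

lemma om_pr_f (i : Fin g) (x : V g) : om (pr i x) (f i) = 0 := by
  rw [pr, om_add_left, om_sub_left, om_smul_left, om_smul_left, om_self, om_e_f]; ring

lemma om_e_pr (i : Fin g) (x : V g) : om (e i) (pr i x) = 0 := by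
  rw [om_swap, om_pr_e]; rfl

lemma om_f_pr (i : Fin g) (x : V g) : om (f i) (pr i x) = 0 := by
  rw [om_swap, om_pr_f]; rfl

lemma pr_of {i : Fin g} {x : V g} (h1 : om x (e i) = 0) (h2 : om x (f i) = 0) : pr i x = x := by
  rw [pr, h1, h2]; module

lemma Dv.pr {x : V g} (h : Dv m x) (i : Fin g) : Dv m (SP.pr i x) := by
  rw [SP.pr]
  exact (h.sub (Dv.of_dvd (h.om_left _) _)).add (Dv.of_dvd (h.om_left _) _)

/-- Clearing the column of `e i` with pivot `1`. -/
theorem clear_e (K : Kil m p) (i : Fin g) (v : V g) (hv : Dv m (v - e i))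
    (h1 : om v (f i) = 1) :
    ∃ k : Sp g, p k = 1 ∧ Cg m k ∧ k (e i) = v ∧ k (f i) = f i ∧
      (∀ x, om x v = 0 → om x (f i) = 0 → om x (e i) = 0 → k x = x) ∧
      ∀ x, ∃ a : ℤ, (k⁻¹) x = x - om x (f i) • pr i v + a • f i := by
  obtain ⟨u, hu⟩ : ∃ u, u = pr i v := ⟨_, rfl⟩
  obtain ⟨t, ht⟩ : ∃ t, t = -om v (e i) := ⟨_, rfl⟩
  have hDu : Dv m u := by
    have := hv.pr i
    rw [pr_sub, pr_e, sub_zero] at this
    rwa [hu]
  have hmt : m ∣ t := by
    have := hv.om_left (e i)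
    rw [om_sub_left, om_self, sub_zero] at this
    rw [ht]; exact this.neg_right
  have huf : om u (f i) = 0 := by rw [hu, om_pr_f]
  have hue : om u (e i) = 0 := by rw [hu, om_pr_e]
  have hfu : om (f i) u = 0 := by rw [om_swap, huf]; rfl
  have heu : om (e i) u = 0 := by rw [om_swap, hue]; rfl
  refine ⟨T (f i) t * SP.S u (f i) 1, ?_, ?_, ?_, ?_, ?_, ?_⟩
  · rw [map_mul, K.Tm _ hmt, K.S' hDu huf, one_mul]
  · exact (Cg.T hmt _).mul (Cg.S' huf hDu 1)
  · rw [sp_mul, S_apply huf, T_apply]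
    simp only [om_add_left, om_smul_left, heu, om_e_f, om_self, huf]
    have := pr_eq i v
    rw [← hu, h1] at this
    rw [this, ht]
    module
  · rw [sp_mul, S_apply huf, T_apply]
    simp only [om_add_left, om_smul_left, hfu, om_self, huf]
    module
  · intro x hx1 hx2 hx3
    have h2 : om x u = 0 := by
      rw [hu, pr, om_add_right, om_sub_right, om_smul_right, om_smul_right, hx1, hx2, hx3]; ring
    rw [sp_mul, S_apply huf, T_apply]
    simp only [om_add_left, om_smul_left, h2, hx2, om_self, huf]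
    module
  · intro x
    refine ⟨-t * om x (f i) - om x u, ?_⟩
    rw [mul_inv_rev, S_inv huf, T_inv, sp_mul, T_apply, S_apply huf]
    simp only [om_add_left, om_smul_left, om_self, hfu, ← hu]
    module

/-- Clearing the image of `f i` when `e i` is fixed. -/
theorem clear_f (K : Kil m p) (i : Fin g) (v : V g) (hv : Dv m (v - f i))
    (h1 : om (e i) v = 1) :
    ∃ k : Sp g, p k = 1 ∧ Cg m k ∧ k (f i) = v ∧ k (e i) = e i ∧
      (∀ x, om x v = 0 → om x (f i) = 0 → om x (e i) = 0 → k x = x) ∧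
      ∀ x, om x (e i) = 0 → ∃ a : ℤ, (k⁻¹) x = x + a • e i := by
  obtain ⟨u, hu⟩ : ∃ u, u = pr i v := ⟨_, rfl⟩
  obtain ⟨s, hs⟩ : ∃ s, s = om v (f i) := ⟨_, rfl⟩
  have hDu : Dv m u := by
    have := hv.pr i
    rw [pr_sub, pr_f, sub_zero] at this
    rwa [hu]
  have hms : m ∣ s := by
    have := hv.om_left (f i)
    rw [om_sub_left, om_self, sub_zero] at this
    rw [hs]; exact this
  have huf : om u (f i) = 0 := by rw [hu, om_pr_f]
  have hue : om u (e i) = 0 := by rw [hu, om_pr_e]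
  have hfu : om (f i) u = 0 := by rw [om_swap, huf]; rfl
  have heu : om (e i) u = 0 := by rw [om_swap, hue]; rfl
  have h1' : om v (e i) = -1 := by rw [om_swap, h1]
  refine ⟨T (e i) (-s) * SP.S u (e i) (-1), ?_, ?_, ?_, ?_, ?_, ?_⟩
  · rw [map_mul, K.Tm _ hms.neg_right, K.S' hDu hue, one_mul]
  · exact (Cg.T hms.neg_right _).mul (Cg.S' hue hDu (-1))
  · rw [sp_mul, S_apply hue, T_apply]
    simp only [om_add_left, om_smul_left, hfu, om_f_e, om_self, hue]
    have := pr_eq i v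
    rw [← hu, h1', ← hs] at this
    rw [this]
    module
  · rw [sp_mul, S_apply hue, T_apply]
    simp only [om_add_left, om_smul_left, heu, om_self, hue]
    module
  · intro x hx1 hx2 hx3
    have h2 : om x u = 0 := by
      rw [hu, pr, om_add_right, om_sub_right, om_smul_right, om_smul_right, hx1, hx2, hx3]; ring
    rw [sp_mul, S_apply hue, T_apply]
    simp only [om_add_left, om_smul_left, h2, hx3, om_self, hue]
    module
  · intro x hx
    refine ⟨om x u, ?_⟩
    rw [mul_inv_rev, S_inv hue, T_inv, sp_mul, T_apply, S_apply hue]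
    simp only [om_add_left, om_smul_left, om_self, hx, heu]
    module

/-- If `A = 1` modulo `m` fixes `e i`, then up to the kernel it fixes `e i` and `f i`. -/
theorem fix_f (K : Kil m p) (i : Fin g) (A : Sp g) (hA : Cg m A) (h1 : A (e i) = e i) :
    ∃ A' : Sp g, p A' = p A ∧ Cg m A' ∧ A' (e i) = e i ∧ A' (f i) = f i ∧
      (∀ j, j ≠ i → A (e j) = e j → A (f j) = f j → A' (e j) = e j ∧ A' (f j) = f j) ∧
      ∀ x, om (A x) (e i) = 0 → ∃ a : ℤ, A' x = A x + a • e i := by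
  obtain ⟨k, hk1, hk2, hk3, hk4, hk5, hk6⟩ := clear_f K i (A (f i)) (hA (f i))
    (by rw [← om_e_f i, ← sp_om A (e i) (f i), h1])
  refine ⟨k⁻¹ * A, ?_, hk2.inv.mul hA, ?_, ?_, ?_, ?_⟩
  · rw [map_mul, map_inv, hk1, inv_one, one_mul]
  · rw [sp_mul, h1]
    calc (k⁻¹) (e i) = (k⁻¹) (k (e i)) := by rw [hk4]
      _ = e i := sp_inv_apply _ _
  · rw [sp_mul, ← hk3, sp_inv_apply]
  · intro j hj he hf
    have h2 : ∀ x : V g, A x = x → om x (f i) = 0 → om x (e i) = 0 → (k⁻¹ * A) x = x := by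
      intro x hx hxf hxe
      have h3 : k x = x := hk5 x (by
        rw [← hx, sp_om]; exact hxf) hxf hxe
      rw [sp_mul, hx]
      calc (k⁻¹) x = (k⁻¹) (k x) := by rw [h3]
        _ = x := sp_inv_apply _ _
    exact ⟨h2 _ he (om_e_f_ne hj) (om_e_e _ _), h2 _ hf (om_f_f _ _) (om_f_e_ne hj)⟩
  · intro x hx
    rw [sp_mul]
    exact hk6 (A x) hx

/-- The pivot lemma. -/
theorem pivot (K : Kil m p) (i : Fin g) (Z : Sp g) (hZ : Cg m Z)
    (h1 : om (Z (e i)) (f i) = 1) :
    ∃ Z' : Sp g, p Z' = p Z ∧ Cg m Z' ∧ Z' (e i) = e i ∧ Z' (f i) = f i ∧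
      ∀ w, om w (e i) = 0 → om w (f i) = 0 →
        Z' w = pr i (Z w) - om (Z w) (f i) • pr i (Z (e i)) := by
  obtain ⟨k, hk1, hk2, hk3, hk4, -, hk6⟩ := clear_e K i (Z (e i)) (hZ (e i)) h1
  obtain ⟨A', hA1, hA2, hA3, hA4, -, hA6⟩ := fix_f K i (k⁻¹ * Z) (hk2.inv.mul hZ)
    (by rw [sp_mul, ← hk3, sp_inv_apply])
  refine ⟨A', ?_, hA2, hA3, hA4, ?_⟩
  · rw [hA1, map_mul, map_inv, hk1, inv_one, one_mul]
  · intro w hwe hwf
    have h2 : om ((k⁻¹ * Z) w) (e i) = 0 := by
      have : om ((k⁻¹ * Z) w) ((k⁻¹ * Z) (e i)) = 0 := by rw [sp_om, hwe]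
      rwa [show (k⁻¹ * Z) (e i) = e i by rw [sp_mul, ← hk3, sp_inv_apply]] at this
    obtain ⟨b, hb⟩ := hA6 w h2
    obtain ⟨a, ha⟩ := hk6 (Z w)
    rw [sp_mul, ha] at hb
    have h3 : pr i (A' w) = A' w := pr_of
      (by
        have := sp_om A' w (e i)
        rw [hA3, hwe] at this; exact this)
      (by
        have := sp_om A' w (f i)
        rw [hA4, hwf] at this; exact this)
    rw [← h3, hb]
    have h4 : pr i (pr i (Z (e i))) = pr i (Z (e i)) := pr_of (om_pr_e _ _) (om_pr_f _ _)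
    rw [pr_add, pr_add, pr_sub, pr_smul, pr_smul, pr_smul, pr_e, pr_f, h4]
    module

end Pool.Agent.H.MP_59b15d_al.SP
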